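import Pool.Agent.N192.MO.Tor

set_option autoImplicit false
set_option linter.unusedSectionVars false

/-!
# The cocycles of the points of an abelian variety
-/

open Module Function TensorProduct Matrix

noncomputable section

namespace Pool.Agent.N192.GC

open Pool.Agent.Y102 Pool.Agent.W516.DR Pool.Agent.H204R3.GP Pool.Agent.W516.KC
  Pool.Agent.H204R3.SP Pool.Agent.TH119.MX Pool.Agent.R917.OM Pool.Agent.R917.BX
  Pool.Agent.N192.MO
open Pool.Agent.N192.GP (NN tt DRS UU RU LU gU LU_le LU_br gU_mem DA ηA NN_reindex brU_snd brU_fst)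

/-- The data of one point. -/
def D1 {g : ℕ} (P : Fin g ⊕ Fin g → ℂ) : Dt g 1 0 := ⟨fun _ => P, fun _ _ => 0⟩

section

variable {g : ℕ} (A : AbVar g)

/-- The relation between elements and tuples. -/
abbrev RlA {n s : ℕ} (D : Dt g n s) (x : RU) (L : Tup A n s) : Prop :=
  Rl (fun _ : Unit => A) () D x L

/-- The member of the universal family. -/
abbrev UMA {n s : ℕ} (D : Dt g n s) : UU := UM (fun _ : Unit => A) () D

/-- The abelian variety as a member. -/
abbrev UAA : UU := UA (fun _ : Unit => A) ()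

/-- The cocycle of one point. -/
def cc (P : Fin g ⊕ Fin g → ℂ) : RU →ₗ[ℚ] A.H1 where
  toFun x := fun j => (x.1 (UMA A (D1 P)) : Module.End ℚ (Fin (RN g 1 0) → ℚ))
    (Pi.single (eRow g 1 0 (Sum.inr (Sum.inr 0))) 1) (eRow g 1 0 (Sum.inl j))
  map_add' x y := by
    funext j
    rfl
  map_smul' c x := by
    funext j
    rfl

theorem cc_of {P : Fin g ⊕ Fin g → ℂ} {x : RU} {L : Tup A 1 0} (h : RlA A (D1 P) x L) :
    cc A P x = L.2.2.1 (Sum.inl 0) := by
  funext j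
  exact tm_apply_eq (A := fun _ : Unit => A) (a := ()) (n := fun _ => 1) (s := fun _ => 0)
    h.mot (Sum.inr (Sum.inr 0)) (Sum.inl j)

variable {n s : ℕ} (D : Dt g n s)

/-- The relation between elements and tuples, with the cocycles of the points. -/
structure RlC (x : RU) (L : Tup A n s) : Prop where
  rl : RlA A D x L
  c1 : ∀ p, ∃ L' : Tup A 1 0, RlA A (D1 (D.P p)) x L' ∧ L'.2.2.1 (Sum.inl 0) = L.2.2.1 p

variable {A D}

theorem RlC.cc {x : RU} {L : Tup A n s} (h : RlC A D x L) (p : Fin n ⊕ Fin s) :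
    cc A (D.P p) x = L.2.2.1 p := by
  obtain ⟨L', h1, h2⟩ := h.c1 p
  rw [cc_of A h1, h2]

theorem RlC.add {x y : RU} {L L' : Tup A n s} (h : RlC A D x L) (h' : RlC A D y L') :
    RlC A D (x + y) (L + L') where
  rl := h.rl.add h'.rl
  c1 := fun p => by
    obtain ⟨M, h1, h2⟩ := h.c1 p
    obtain ⟨M', h1', h2'⟩ := h'.c1 p
    refine ⟨M + M', h1.add h1', ?_⟩
    rw [Prod.snd_add, Prod.snd_add, Prod.fst_add, Pi.add_apply, h2, h2']
    rfl

theorem RlC.smul {x : RU} {L : Tup A n s} (c : ℚ) (h : RlC A D x L) :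
    RlC A D (c • x) (c • L) where
  rl := h.rl.smul c
  c1 := fun p => by
    obtain ⟨M, h1, h2⟩ := h.c1 p
    refine ⟨c • M, h1.smul c, ?_⟩
    rw [Prod.smul_snd, Prod.smul_snd, Prod.smul_fst, Pi.smul_apply, h2]
    rfl

theorem RlC.zero : RlC A D 0 0 where
  rl := Rl.zero
  c1 := fun p => ⟨0, Rl.zero, rfl⟩

theorem op_eq {x : RU} {L : Tup A n s} (h : RlA A D x L) {n' s' : ℕ} {D' : Dt g n' s'}
    {M : Tup A n' s'} (h' : RlA A D' x M) : op L = op M := by
  rw [← h.ab, ← h'.ab]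

theorem RlC.br {x y : RU} {L L' : Tup A n s} (h : RlC A D x L) (h' : RlC A D y L') :
    RlC A D (x * y - y * x) (Pool.Agent.R917.OM.br L L') where
  rl := h.rl.br h'.rl
  c1 := fun p => by
    obtain ⟨M, h1, h2⟩ := h.c1 p
    obtain ⟨M', h1', h2'⟩ := h'.c1 p
    refine ⟨_, h1.br h1', ?_⟩
    change op M (M'.2.2.1 _) - op M' (M.2.2.1 _) = op L (L'.2.2.1 p) - op L' (L.2.2.1 p)
    rw [h2, h2', op_eq h.rl h1, op_eq h'.rl h1']

theorem RlC.gen (D' : Derivation QBar ℂ ℂ) (lam : ℂ →ₗ[ℚ] ℚ) :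
    RlC A D (gU D' lam) (LD A D D' lam) where
  rl := Rl.gen D' lam
  c1 := fun p => ⟨LD A (D1 (D.P p)) D' lam, Rl.gen D' lam, rfl⟩

variable (A D) in
/-- Every element of the universal Lie algebra acts by a tuple. -/
theorem exists_RlC {x : RU} (hx : x ∈ LU) : ∃ L : Tup A n s, RlC A D x L := by
  let 𝔩 : Submodule ℚ RU :=
    { carrier := {x | ∃ L : Tup A n s, RlC A D x L}
      zero_mem' := ⟨0, RlC.zero⟩
      add_mem' := fun ⟨L, hL⟩ ⟨L', hL'⟩ => ⟨L + L', hL.add hL'⟩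
      smul_mem' := fun c _ ⟨L, hL⟩ => ⟨c • L, hL.smul c⟩ }
  have h1 : LU ≤ 𝔩 := LU_le (fun x ⟨L, hL⟩ y ⟨L', hL'⟩ => ⟨Pool.Agent.R917.OM.br L L', hL.br hL'⟩)
    fun D lam => ⟨_, RlC.gen D lam⟩
  exact h1 hx

variable (A D) in
/-- The tuples of the elements of the universal Lie algebra. -/
def gD : Submodule ℚ (Tup A n s) where
  carrier := {L | ∃ x ∈ LU, RlC A D x L}
  zero_mem' := ⟨0, LU.zero_mem, RlC.zero⟩
  add_mem' := fun ⟨x, hx, h⟩ ⟨y, hy, h'⟩ => ⟨x + y, LU.add_mem hx hy, h.add h'⟩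
  smul_mem' := fun c _ ⟨x, hx, h⟩ => ⟨c • x, LU.smul_mem c hx, h.smul c⟩

theorem gD_Lg : Lg (gD A D) D where
  na := fun L ⟨x, _, h⟩ => h.rl.na
  br := fun L ⟨x, hx, h⟩ L' ⟨y, hy, h'⟩ => ⟨_, LU_br x hx y hy, h.br h'⟩
  per := fun D' lam => ⟨_, gU_mem D' lam, RlC.gen D' lam⟩

end

section

variable {g n s : ℕ} {A : AbVarG g} {D : Dt g n s}

/-- Decomposition of vectors. -/
theorem dec_per (x : (Fin n ⊕ Fin s) → Fin g → ℂ) : x = ∑ p, ∑ j,
    ((A.lam.repr (x p) j : ℝ) : ℂ) • fun q : Fin n ⊕ Fin s =>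
      A.toAbVar.per ((Pi.single p (eb A.toAbVar j) : (Fin n ⊕ Fin s) → A.toAbVar.H1) q) := by
  funext p
  rw [Finset.sum_apply, Finset.sum_eq_single p]
  · rw [Finset.sum_apply]
    conv_lhs => rw [← A.lam.sum_repr (x p)]
    refine Finset.sum_congr rfl fun j _ => ?_
    change A.lam.repr (x p) j • A.lam j = ((A.lam.repr (x p) j : ℝ) : ℂ) •
      A.per ((Pi.single p (eb A.toAbVar j) : (Fin n ⊕ Fin s) → A.H1) p)
    rw [Pi.single_eq_same, Complex.coe_smul]
    congr 1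
    have h4 := A.per_bas j
    unfold AbVar.bas at h4
    rw [Pi.basisFun_apply] at h4
    exact h4.symm
  · intro q _ hq
    rw [Finset.sum_apply]
    refine Finset.sum_eq_zero fun j _ => ?_
    change ((A.lam.repr (x q) j : ℝ) : ℂ) •
      A.per ((Pi.single q (eb A.toAbVar j) : (Fin n ⊕ Fin s) → A.H1) p) = 0
    rw [Pi.single_eq_of_ne hq.symm, map_zero, smul_zero]
  · intro hp
    exact absurd (Finset.mem_univ _) hp

/-- **Relations between the cocycles give relations between the points.** -/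
theorem rel_of {K₁ : IntermediateField ℚ ℂ} [FiniteDimensional ℚ K₁]
    (hu : ∀ p (m : ℕ), IsRat A.toAbVar K₁ (m • pt D p))
    {f : Fin n ⊕ Fin s → Module.End ℚ A.toAbVar.H1}
    {F : Fin n ⊕ Fin s → (Fin g → ℂ) →ₗ[ℂ] (Fin g → ℂ)}
    (hF : ∀ p w, A.toAbVar.per (f p w) = F p (A.toAbVar.per w))
    (h0 : ∀ L ∈ gD A.toAbVar D, L.1 = 0 → L.2.1 = 0 → ∑ p, f p (L.2.2.1 p) = 0) :
    ∃ w : A.toAbVar.H1, ∑ p, F p (pt D p) = A.toAbVar.per w := by
  obtain ⟨u⟩ := main2 (gD_Lg (A := A.toAbVar) (D := D)) hu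
  have h1 : ∀ z, ∑ p, f p (z p) = ∑ p, f p (u.π z p) := by
    intro z
    have h2 : z - u.π z ∈ uu (gD A.toAbVar D) := by
      rw [← u.π0, map_sub, u.π2, sub_self]
    obtain ⟨t, ht⟩ := h2
    have h3 := h0 _ ht rfl rfl
    have h4 : ∑ p, f p ((z - u.π z) p) = 0 := h3
    simp only [Pi.sub_apply, map_sub, Finset.sum_sub_distrib] at h4
    exact sub_eq_zero.1 h4
  let G : ((Fin n ⊕ Fin s) → Fin g → ℂ) →ₗ[ℂ] (Fin g → ℂ) :=
    ∑ p, (F p) ∘ₗ (LinearMap.proj p - ∑ q, (u.F p q) ∘ₗ LinearMap.proj q)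
  have hG : ∀ v, G v = ∑ p, F p (v p - ∑ q, u.F p q (v q)) := by
    intro v
    simp only [G]
    rw [LinearMap.sum_apply]
    refine Finset.sum_congr rfl fun p _ => ?_
    rw [LinearMap.comp_apply, LinearMap.sub_apply, LinearMap.proj_apply, LinearMap.sum_apply]
    rfl
  have hG0 : ∀ z : (Fin n ⊕ Fin s) → A.toAbVar.H1, G (fun p => A.toAbVar.per (z p)) = 0 := by
    intro z
    rw [hG]
    have h2 : ∀ p, F p (A.toAbVar.per (z p) - ∑ q, u.F p q (A.toAbVar.per (z q))) =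
        A.toAbVar.per (f p (z p)) - A.toAbVar.per (f p (u.π z p)) := by
      intro p
      rw [map_sub, hF, hF]
      congr 2
      rw [u.fπ, map_sum]
      exact Finset.sum_congr rfl fun q _ => (u.fF p q (z q)).symm
    simp only [h2]
    rw [Finset.sum_sub_distrib, ← map_sum, ← map_sum, h1 z, sub_self]
  have hG1 : ∀ v, G v = 0 := by
    intro v
    rw [dec_per (A := A) v, map_sum]
    refine Finset.sum_eq_zero fun p _ => ?_
    rw [map_sum]
    refine Finset.sum_eq_zero fun j _ => ?_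
    rw [map_smul, hG0, smul_zero]
  have h5 : ∑ p, F p (pt D p - A.toAbVar.per (u.w p)) = 0 := by
    have h6 := hG1 fun p => pt D p - A.toAbVar.per (u.w p)
    rw [hG] at h6
    rw [← h6]
    refine Finset.sum_congr rfl fun p _ => ?_
    have h7 := u.rel p
    change _ = F p (_ - ∑ q, u.F p q (pt D q - A.toAbVar.per (u.w q)))
    rw [h7, sub_zero]
  simp only [map_sub, Finset.sum_sub_distrib] at h5
  refine ⟨∑ p, f p (u.w p), ?_⟩
  rw [map_sum, sub_eq_zero.1 h5]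
  exact Finset.sum_congr rfl fun p _ => (hF p (u.w p)).symm

end

end Pool.Agent.N192.GC
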