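import Mathlib

set_option autoImplicit false
set_option linter.unusedSectionVars false
set_option linter.unusedVariables false

/-!
# Semisimple representations and products
-/

open Module

noncomputable section

namespace Pool.Agent.N192.GC

section one

variable {L W : Type} [AddCommGroup W] [Module ℚ W] (ρ : L → Module.End ℚ W)

/-- The module over the free algebra. -/
@[reducible] def mF : Module (FreeAlgebra ℚ L) W :=
  Module.compHom W (FreeAlgebra.lift ℚ ρ).toRingHom

theorem lift_mem {U : Submodule ℚ W} (hU : ∀ x, ∀ u ∈ U, ρ x u ∈ U) (a : FreeAlgebra ℚ L) :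
    ∀ u ∈ U, FreeAlgebra.lift ℚ ρ a u ∈ U := by
  induction a using FreeAlgebra.induction with
  | grade0 c =>
    intro u hu
    rw [AlgHom.commutes]
    exact U.smul_mem c hu
  | grade1 x =>
    intro u hu
    rw [FreeAlgebra.lift_ι_apply]
    exact hU x u hu
  | mul a b ha hb =>
    intro u hu
    rw [map_mul]
    exact ha _ (hb u hu)
  | add a b ha hb =>
    intro u hu
    rw [map_add]
    exact U.add_mem (ha u hu) (hb u hu)

/-- Complements of stable subspaces. -/
def SemiF : Prop := ∀ U : Submodule ℚ W, (∀ x, ∀ u ∈ U, ρ x u ∈ U) →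
  ∃ U' : Submodule ℚ W, (∀ x, ∀ u ∈ U', ρ x u ∈ U') ∧ IsCompl U U'

theorem semi_mF (h : SemiF ρ) : @IsSemisimpleModule (FreeAlgebra ℚ L) _ W _ (mF ρ) := by
  let _ := mF ρ
  refine { exists_isCompl := fun U => ?_ }
  let U0 : Submodule ℚ W :=
    { carrier := U
      zero_mem' := U.zero_mem
      add_mem' := fun ha hb => U.add_mem ha hb
      smul_mem' := fun c u hu => by
        have h1 : (algebraMap ℚ (FreeAlgebra ℚ L) c) • u ∈ U := U.smul_mem _ hu
        have h2 : (algebraMap ℚ (FreeAlgebra ℚ L) c) • u = c • u := by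
          change FreeAlgebra.lift ℚ ρ (algebraMap ℚ (FreeAlgebra ℚ L) c) u = c • u
          rw [AlgHom.commutes]
          rfl
        rwa [h2] at h1 }
  obtain ⟨V, hV, hc⟩ := h U0 fun x u hu => by
    have h1 : FreeAlgebra.ι ℚ x • u ∈ U := U.smul_mem _ hu
    have h2 : FreeAlgebra.ι ℚ x • u = ρ x u := by
      change FreeAlgebra.lift ℚ ρ (FreeAlgebra.ι ℚ x) u = ρ x u
      rw [FreeAlgebra.lift_ι_apply]
    rwa [h2] at h1
  let V0 : Submodule (FreeAlgebra ℚ L) W :=
    { carrier := V
      zero_mem' := V.zero_mem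
      add_mem' := fun ha hb => V.add_mem ha hb
      smul_mem' := fun a u hu => lift_mem ρ hV a u hu }
  refine ⟨V0, ?_⟩
  constructor
  · rw [Submodule.disjoint_def]
    intro x hx hx'
    exact Submodule.disjoint_def.1 hc.disjoint x hx hx'
  · rw [codisjoint_iff_le_sup]
    intro x _
    have h1 : x ∈ U0 ⊔ V := by
      rw [hc.sup_eq_top]
      trivial
    obtain ⟨a, ha, b, hb, rfl⟩ := Submodule.mem_sup.1 h1
    exact Submodule.mem_sup.2 ⟨a, ha, b, hb, rfl⟩

end one

section fam

variable {L Q : Type} [Fintype Q] {W : Q → Type} [∀ q, AddCommGroup (W q)] [∀ q, Module ℚ (W q)]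
  (ρ : ∀ q, L → Module.End ℚ (W q))

/-- Stable subspaces of products are kernels of projectors. -/
theorem exists_proj_fam (hs : ∀ q, SemiF (ρ q)) (R : Submodule ℚ (∀ q, W q))
    (hR : ∀ x, ∀ u ∈ R, (fun q => ρ q x (u q)) ∈ R) :
    ∃ π : (∀ q, W q) →ₗ[ℚ] (∀ q, W q), (∀ z, π (π z) = π z) ∧ (∀ z, π z = 0 ↔ z ∈ R) ∧
      ∀ x z, π (fun q => ρ q x (z q)) = fun q => ρ q x (π z q) := by
  let _ : ∀ q, Module (FreeAlgebra ℚ L) (W q) := fun q => mF (ρ q)
  have h0 : ∀ q, IsSemisimpleModule (FreeAlgebra ℚ L) (W q) := fun q => semi_mF (ρ q) (hs q)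
  have h1 : IsSemisimpleModule (FreeAlgebra ℚ L) (∀ q, W q) := inferInstance
  have hsm : ∀ (a : FreeAlgebra ℚ L) (u : ∀ q, W q), a • u = fun q =>
    FreeAlgebra.lift ℚ (ρ q) a (u q) := fun a u => rfl
  let R0 : Submodule (FreeAlgebra ℚ L) (∀ q, W q) :=
    { carrier := R
      zero_mem' := R.zero_mem
      add_mem' := fun ha hb => R.add_mem ha hb
      smul_mem' := fun a u hu => by
        rw [hsm]
        change (fun q => FreeAlgebra.lift ℚ (ρ q) a (u q)) ∈ R
        have key : ∀ (a : FreeAlgebra ℚ L), ∀ u ∈ R,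
            (fun q => FreeAlgebra.lift ℚ (ρ q) a (u q)) ∈ R := by
          intro a
          induction a using FreeAlgebra.induction with
          | grade0 c =>
            intro u hu
            have h2 : (fun q => FreeAlgebra.lift ℚ (ρ q) (algebraMap ℚ (FreeAlgebra ℚ L) c) (u q)) =
                c • u := by
              funext q
              rw [AlgHom.commutes]
              rfl
            rw [h2]
            exact R.smul_mem c hu
          | grade1 x =>
            intro u hu
            simp only [FreeAlgebra.lift_ι_apply]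
            exact hR x u hu
          | mul a b ha hb =>
            intro u hu
            simp only [map_mul]
            exact ha _ (hb u hu)
          | add a b ha hb =>
            intro u hu
            simp only [map_add]
            exact R.add_mem (ha u hu) (hb u hu)
        exact key a u hu }
  obtain ⟨V, hV⟩ := exists_isCompl R0
  let π := Submodule.projection V R0 hV.symm
  have h2 : ∀ z, z ∈ V → π z = z := fun z hz => by
    exact Submodule.projection_apply_left hV.symm ⟨z, hz⟩
  have h3 : ∀ z, π z ∈ V := fun z => Submodule.projection_apply_mem hV.symm z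
  let π0 : (∀ q, W q) →ₗ[ℚ] (∀ q, W q) :=
    { toFun := π
      map_add' := map_add π
      map_smul' := fun c u => by
        have h4 := π.map_smul (algebraMap ℚ (FreeAlgebra ℚ L) c) u
        have h5 : ∀ u : ∀ q, W q, (algebraMap ℚ (FreeAlgebra ℚ L) c) • u = c • u := by
          intro u
          funext q
          rw [hsm]
          change FreeAlgebra.lift ℚ (ρ q) (algebraMap ℚ (FreeAlgebra ℚ L) c) (u q) = c • u q
          rw [AlgHom.commutes]
          rfl
        rw [h5, h5] at h4
        exact h4 }
  refine ⟨π0, fun z => h2 _ (h3 z), fun z => ?_, fun x z => ?_⟩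
  · change π z = 0 ↔ z ∈ R0
    exact Submodule.projection_apply_eq_zero_iff hV.symm
  · have h4 := π.map_smul (FreeAlgebra.ι ℚ x) z
    rw [hsm, hsm] at h4
    simp only [FreeAlgebra.lift_ι_apply] at h4
    exact h4

end fam

end Pool.Agent.N192.GC
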