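import Pool.Agent.N192.GC.Ind
import Pool.Agent.N192.GC.Semi
import Pool.Agent.N192.GP.Exc

set_option autoImplicit false
set_option linter.unusedSectionVars false
set_option linter.unusedVariables false

/-!
# Families of abelian varieties
-/

open Module Function TensorProduct Matrix

noncomputable section

namespace Pool.Agent.N192.GC

open Pool.Agent.Y102 Pool.Agent.W516.DR Pool.Agent.H204R3.GP Pool.Agent.W516.KC
  Pool.Agent.H204R3.SP Pool.Agent.TH119.MX Pool.Agent.R917.OM Pool.Agent.R917.BX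
  Pool.Agent.N192.MO
open Pool.Agent.N192.GP (NN tt DRS UU RU LU gU LU_le LU_br gU_mem DA ηA NN_reindex brU_snd brU_fst
  hom_of_comm IsHomAb eqv DA_basis)

/-- The trivial data. -/
def DZ (g : ℕ) : Dt g 0 0 := ⟨Sum.elim Fin.elim0 Fin.elim0, fun _ _ => 0⟩

section step

variable {g g' : ℕ} (A : AbVarG g) (B : AbVarG g')

/-- Equivariant maps from ideals to the homology vanish if they factor through the action on another
abelian variety. -/
theorem vanish_step {M : Submodule ℚ RU} (hM : M ≤ LU)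
    (hMid : ∀ y ∈ LU, ∀ x ∈ M, y * x - x * y ∈ M) (G : LU →ₗ[ℚ] A.toAbVar.H1)
    (hG : ∀ (y : LU) (x : LU), x.1 ∈ M → G ⟨y.1 * x.1 - x.1 * y.1, LU_br y.1 y.2 x.1 x.2⟩ =
      aA A y.1 (G x))
    (h0 : ∀ x : LU, x.1 ∈ M → aA B x.1 = 0 → G x = 0) (x : LU) (hx : x.1 ∈ M) : G x = 0 := by
  obtain ⟨Z, ⟨y, hy, hZ⟩, hc0, hcen⟩ := exists_central (gD_Lg (A := B.toAbVar) (D := DZ g'))
  obtain ⟨L, hL⟩ := exists_RlC A.toAbVar (DZ g) hy
  have hc : L.2.1 ≠ 0 := by
    intro h1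
    have h2 := hL.rl.tw
    have h3 := hZ.rl.tw
    rw [h1, mul_zero] at h2
    rw [h2] at h3
    exact hc0 (by linarith)
  -- the element is central on `B`
  have h1 : ∀ x : LU, x.1 ∈ M → aA A y (G x) = 0 := by
    intro x hx
    rw [← hG ⟨y, hy⟩ x hx]
    refine h0 _ (hMid y hy x.1 hx) ?_
    obtain ⟨L', hL'⟩ := exists_RlC B.toAbVar (DZ g') x.2
    have h2 := hcen L' ⟨x.1, x.2, hL'⟩
    change aA B (y * x.1 - x.1 * y) = 0
    rw [aA_br, aA_of B hZ.rl, aA_of B hL'.rl]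
    unfold op
    simp only [add_mul, mul_add, smul_mul_assoc, mul_smul_comm, one_mul, mul_one]
    rw [h2]
    module
  let R : Submodule ℚ A.toAbVar.H1 := (M.comap LU.subtype).map G
  have hR : ∀ (y : RU), y ∈ LU → ∀ u ∈ R, aA A y u ∈ R := by
    rintro y hy _ ⟨x, hx, rfl⟩
    rw [← hG ⟨y, hy⟩ x hx]
    exact ⟨_, hMid y hy x.1 hx, rfl⟩
  have h2 : IsDeRhamBettiSubspace QBar A.dR R := by
    rw [← A.coe_basis]
    refine sub_of_stable A.basis (τ := tau) R fun D lam u hu => ?_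
    have h3 := hR _ (gU_mem D lam) u hu
    have h4 := aA_of A (RlC.gen (A := A.toAbVar) (D := DZ g) D lam).rl
    rw [h4] at h3
    have h5 : op (LD A.toAbVar (DZ g) D lam) u = X0 A.basis tau D lam u +
        (LD A.toAbVar (DZ g) D lam).2.1 • u := rfl
    rw [h5] at h3
    have h6 := R.sub_mem h3 (R.smul_mem (LD A.toAbVar (DZ g) D lam).2.1 hu)
    rwa [add_sub_cancel_right] at h6
  have h3 := A.isCompl_of_sub h2
  refine Submodule.disjoint_def.1 h3.disjoint (G x) ⟨x, hx, rfl⟩ ?_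
  rintro _ ⟨x', hx', rfl⟩
  have h4 := h1 x hx
  have h5 := h1 x' hx'
  rw [aA_of A hL.rl, op_apply] at h4 h5
  have h6 := A.NA_skew hL.rl.na (G x') (G x)
  rw [eq_neg_of_add_eq_zero_left h4, eq_neg_of_add_eq_zero_left h5] at h6
  simp only [map_neg, map_smul, LinearMap.neg_apply, LinearMap.smul_apply, smul_eq_mul] at h6
  have h7 : L.2.1 * A.om (G x') (G x) = 0 := by linarith
  exact (mul_eq_zero.1 h7).resolve_left hc

/-- Combinations with trivial cocycle are periods. -/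
theorem sg_of_ga_fam {K : Type} [Fintype K] {gl : K → ℕ} (B : ∀ l, AbVarG (gl l))
    {φ : pts A →₀ EE A} (hφ : ∀ x : LU, aA A x.1 = 0 → x.1.2 = 0 → (∀ l, aA (B l) x.1 = 0) →
      ga A φ x = 0) : sg A φ ∈ LinearMap.range A.toAbVar.per := by
  classical
  refine sg_of_ga' A fun x hx1 hx2 => ?_
  have key : ∀ S : Finset K, (∀ x : LU, aA A x.1 = 0 → x.1.2 = 0 → (∀ l ∈ S, aA (B l) x.1 = 0) →
      ga A φ x = 0) → ∀ x : LU, aA A x.1 = 0 → x.1.2 = 0 → ga A φ x = 0 := by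
    intro S
    induction S using Finset.induction_on with
    | empty => exact fun h x h1 h2 => h x h1 h2 fun l hl => absurd hl (Finset.notMem_empty l)
    | insert l S hl ih =>
      intro h
      refine ih fun x h1 h2 h3 => ?_
      let M : Submodule ℚ RU :=
        { carrier := {x | x ∈ LU ∧ aA A x = 0 ∧ x.2 = 0 ∧ ∀ l ∈ S, aA (B l) x = 0}
          zero_mem' := ⟨LU.zero_mem, rfl, rfl, fun l _ => rfl⟩
          add_mem' := by
            rintro x y ⟨a1, a2, a3, a4⟩ ⟨b1, b2, b3, b4⟩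
            refine ⟨LU.add_mem a1 b1, ?_, ?_, fun l hl => ?_⟩
            · rw [aA_add, a2, b2, add_zero]
            · rw [Prod.snd_add, a3, b3, add_zero]
            · rw [aA_add, a4 l hl, b4 l hl, add_zero]
          smul_mem' := by
            rintro c x ⟨a1, a2, a3, a4⟩
            refine ⟨LU.smul_mem c a1, ?_, ?_, fun l hl => ?_⟩
            · rw [aA_smul, a2, smul_zero]
            · rw [Prod.smul_snd, a3, smul_zero]
            · rw [aA_smul, a4 l hl, smul_zero] }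
      refine vanish_step A (B l) (M := M) (fun x hx => hx.1) ?_ (ga A φ) ?_ ?_ x
        ⟨x.2, h1, h2, h3⟩
      · rintro y hy x ⟨a1, a2, a3, a4⟩
        refine ⟨LU_br y hy x a1, ?_, brU_snd _ _, fun l hl => ?_⟩
        · rw [aA_br, a2, mul_zero, zero_mul, sub_zero]
        · rw [aA_br, a4 l hl, mul_zero, zero_mul, sub_zero]
      · rintro y x ⟨a1, a2, a3, a4⟩
        rw [ga_br, a2, LinearMap.zero_apply, sub_zero]
      · rintro x ⟨a1, a2, a3, a4⟩ hxl
        refine h x a2 a3 fun l' hl' => ?_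
        rcases Finset.mem_insert.1 hl' with rfl | h5
        · exact hxl
        · exact a4 l' h5
  exact key Finset.univ (fun x h1 h2 h3 => hφ x h1 h2 fun l => h3 l (Finset.mem_univ l)) x hx1 hx2

end step

section fam

variable {K : Type} [Fintype K] [DecidableEq K] {g : K → ℕ} (A : ∀ k, AbVarG (g k))

/-- Maps which commute with the logarithmic derivatives are homomorphisms of abelian varieties. -/
theorem hom_of_equiv {k l : K} {f : (A k).toAbVar.H1 →ₗ[ℚ] (A l).toAbVar.H1}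
    (h : ∀ x ∈ LU, ∀ w, f (aA (A k) x w) = aA (A l) x (f w)) :
    IsHomAb (A k).toAbVar (A l).toAbVar f := by
  have hdR : ∃ a : (Fin (g l) ⊕ Fin (g l)) → (Fin (g k) ⊕ Fin (g k)) → QBar,
      ∀ p w, (A l).dR p (f w) = ∑ q, algebraMap QBar ℂ (a p q) * (A k).dR q w := by
    obtain ⟨a, ha⟩ := hom_of_comm (fun k => ηA (fun k => (A k).toAbVar) k) (s := k) (t := l)
      (f := f) (fun D lam => by
        refine LinearMap.ext fun w => ?_
        have h1 := h _ (gU_mem D lam) w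
        have h2 : ∀ k, (NN (ηA (fun k => (A k).toAbVar) k) D lam :
            Module.End ℚ (Fin (2 * g k) → ℚ)) = aA (A k) (gU D lam) := by
          intro k
          change NN (ηA (fun k => (A k).toAbVar) k) D lam =
            NN (DA (fun _ : Unit => (A k).toAbVar) ()).basis D lam
          rw [DA_basis]
          rfl
        rw [h2, h2]
        exact h1.symm)
    refine ⟨fun p q => a (eqv (g l) p) (eqv (g k) q), fun p w => ?_⟩
    have h1 : (A l).dR p (f w) = ηA (fun k => (A k).toAbVar) l (eqv (g l) p) (f w) := by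
      unfold ηA
      rw [Basis.reindex_apply, Equiv.symm_apply_apply, (A l).coe_basis]
    have h2 : ∀ q, ηA (fun k => (A k).toAbVar) k (eqv (g k) q) w = (A k).dR q w := by
      intro q
      unfold ηA
      rw [Basis.reindex_apply, Equiv.symm_apply_apply, (A k).coe_basis]
    have h3 : ηA (fun k => (A k).toAbVar) l (eqv (g l) p) (f w) =
        ∑ q, algebraMap QBar ℂ (a (eqv (g l) p) q) * ηA (fun k => (A k).toAbVar) k q w :=
      ha (eqv (g l) p) w
    refine h1.trans (h3.trans ?_)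
    refine (Equiv.sum_comp (eqv (g k)) (fun q => algebraMap QBar ℂ (a (eqv (g l) p) q) *
        ηA (fun k => (A k).toAbVar) k q w)).symm.trans ?_
    exact Finset.sum_congr rfl fun q _ => by rw [h2]
  exact ⟨(A k).toAbVar.hodge_hom (A l).toAbVar hdR, hdR⟩

variable (V : UU)

/-- The elements which act trivially on all abelian varieties of the family. -/
def aUF : Submodule ℚ RU where
  carrier := {x | x ∈ LU ∧ (∀ k, aA (A k) x = 0) ∧ x.2 = 0}
  zero_mem' := ⟨LU.zero_mem, fun _ => rfl, rfl⟩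
  add_mem' := by
    rintro x y ⟨h0, h1, h2⟩ ⟨h0', h1', h2'⟩
    refine ⟨LU.add_mem h0 h0', fun k => ?_, ?_⟩
    · rw [aA_add, h1, h1', add_zero]
    · rw [Prod.snd_add, h2, h2', add_zero]
  smul_mem' := by
    rintro c x ⟨h0, h1, h2⟩
    refine ⟨LU.smul_mem c h0, fun k => ?_, ?_⟩
    · rw [aA_smul, h1, smul_zero]
    · rw [Prod.smul_snd, h2, smul_zero]

/-- The inclusion. -/
def iUF : aUF A →ₗ[ℚ] LU := Submodule.inclusion fun _ hx => hx.1

theorem semiF (k : K) : SemiF fun x : LU => aA (A k) x.1 := by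
  intro U hU
  have hLg := gD_Lg (A := (A k).toAbVar) (D := DZ (g k))
  obtain ⟨U', h1, h2⟩ := hLg.full.semi U (by
    rintro _ ⟨L, ⟨y, hy, hL⟩, rfl⟩ u hu
    have h3 : aA (A k) y u ∈ U := hU ⟨y, hy⟩ u hu
    rw [show aA (A k) y = op L from aA_of (A k) hL.rl, op_apply] at h3
    have h4 := U.sub_mem h3 (U.smul_mem L.2.1 hu)
    rwa [add_sub_cancel_right] at h4)
  refine ⟨U', fun x u hu => ?_, h2⟩
  obtain ⟨L, hL⟩ := exists_RlC (A k).toAbVar (DZ (g k)) x.2
  change aA (A k) x.1 u ∈ U'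
  rw [show aA (A k) x.1 = op L from aA_of (A k) hL.rl, op_apply]
  exact U'.add_mem (h1 L.1 ⟨L, ⟨x.1, x.2, hL⟩, rfl⟩ u hu) (U'.smul_mem _ hu)

/-- **The dimension of the abelian subvarieties generated by exceptional points.** -/
theorem count_fam (hom : ∀ k l, k ≠ l → ∀ f : (A k).toAbVar.H1 →ₗ[ℚ] (A l).toAbVar.H1,
      IsHomAb (A k).toAbVar (A l).toAbVar f → f = 0) {m : K → ℕ}
    {v : ∀ k, Fin (m k) → Fin (g k) → ℂ} (hv : ∀ k i, v k i ∈ Gam (A k) V) :
    ∑ k, finrank ℚ (hullQ (A k) (v k)) ≤ V.1 * V.1 := by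
  classical
  choose φ hφ hφv using hv
  let c : LU →ₗ[ℚ] (∀ q : Σ k, Fin (m k), (A q.1).toAbVar.H1) :=
    LinearMap.pi fun q => ga (A q.1) (φ q.1 q.2)
  obtain ⟨π, hπ2, hπ0, hπc⟩ := exists_proj_fam (fun (q : Σ k, Fin (m k)) (x : LU) => aA (A q.1) x.1)
    (fun q => semiF A q.1) (LinearMap.range (c ∘ₗ iUF A)) (by
    rintro y _ ⟨⟨x, hx0, hx1, hx2⟩, rfl⟩
    have hyx : y.1 * x - x * y.1 ∈ aUF A := by
      refine ⟨LU_br y.1 y.2 x hx0, fun k => ?_, brU_snd _ _⟩
      rw [aA_br, hx1, mul_zero, zero_mul, sub_zero]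
    refine ⟨⟨_, hyx⟩, ?_⟩
    funext q
    change ga (A q.1) (φ q.1 q.2) ⟨y.1 * x - x * y.1, LU_br y.1 y.2 x hx0⟩ =
      aA (A q.1) y.1 (ga (A q.1) (φ q.1 q.2) ⟨x, hx0⟩)
    rw [ga_br (A q.1) (φ q.1 q.2) y ⟨x, hx0⟩]
    change aA (A q.1) y.1 (ga (A q.1) (φ q.1 q.2) ⟨x, hx0⟩) -
      aA (A q.1) x (ga (A q.1) (φ q.1 q.2) y) = _
    rw [hx1, LinearMap.zero_apply, sub_zero])
  let f : ∀ p q : Σ k, Fin (m k), (A q.1).toAbVar.H1 →ₗ[ℚ] (A p.1).toAbVar.H1 := fun p q =>
    (LinearMap.proj p ∘ₗ π) ∘ₗ LinearMap.single ℚ (fun q : Σ k, Fin (m k) => (A q.1).toAbVar.H1) q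
  have hfπ : ∀ z p, π z p = ∑ q, f p q (z q) := by
    intro z p
    have h1 : z = ∑ q, (LinearMap.single ℚ (fun q : Σ k, Fin (m k) => (A q.1).toAbVar.H1) q
        (z q)) := by
      funext q
      rw [Finset.sum_apply, Finset.sum_eq_single q]
      · simp
      · intro b _ hb
        simp [hb.symm]
      · intro hq
        exact absurd (Finset.mem_univ _) hq
    conv_lhs => rw [h1, map_sum, Finset.sum_apply]
    rfl
  have hfc : ∀ p q, ∀ y ∈ LU, ∀ w, f p q (aA (A q.1) y w) = aA (A p.1) y (f p q w) := by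
    intro p q y hy w
    have h1 := congrFun (hπc ⟨y, hy⟩ (Pi.single q w)) p
    have h2 : (fun p : Σ k, Fin (m k) => aA (A p.1) y
        ((Pi.single q w : ∀ q : Σ k, Fin (m k), (A q.1).toAbVar.H1) p)) =
        (Pi.single q (aA (A q.1) y w) : ∀ q : Σ k, Fin (m k), (A q.1).toAbVar.H1) := by
      funext p'
      by_cases hp : p' = q
      · subst hp
        rw [Pi.single_eq_same, Pi.single_eq_same]
      · rw [Pi.single_eq_of_ne hp, Pi.single_eq_of_ne hp, map_zero]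
    rw [h2] at h1
    exact h1
  have hhom : ∀ p q, IsHomAb (A q.1).toAbVar (A p.1).toAbVar (f p q) := fun p q =>
    hom_of_equiv A (hfc p q)
  have hf0 : ∀ p q : Σ k, Fin (m k), q.1 ≠ p.1 → f p q = 0 := fun p q hpq =>
    hom _ _ hpq _ (hhom p q)
  choose F hF using fun p q => (hhom p q).1
  let e : ∀ (k : K) (i j : Fin (m k)), EE (A k) := fun k i j =>
    ⟨(f ⟨k, i⟩ ⟨k, j⟩, F ⟨k, i⟩ ⟨k, j⟩), hF ⟨k, i⟩ ⟨k, j⟩,
      (A k).toAbVar.mem_EA.2 (hhom ⟨k, i⟩ ⟨k, j⟩).2⟩
  have hπk : ∀ z (k : K) (i : Fin (m k)), π z ⟨k, i⟩ = ∑ j, (e k i j).1.1 (z ⟨k, j⟩) := by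
    intro z k i
    rw [hfπ, Fintype.sum_sigma, Finset.sum_eq_single k]
    · intro l _ hl
      refine Finset.sum_eq_zero fun j _ => ?_
      rw [hf0 ⟨k, i⟩ ⟨l, j⟩ hl, LinearMap.zero_apply]
    · intro h
      exact absurd (Finset.mem_univ _) h
  have hrel : ∀ k i, ∑ j, (e k i j).1.2 (v k j) ∈ LinearMap.range (A k).toAbVar.per := by
    intro k i
    have h1 : sg (A k) (∑ j, em (A k) (e k i j) (φ k j)) = ∑ j, (e k i j).1.2 (v k j) := by
      rw [map_sum]
      exact Finset.sum_congr rfl fun j _ => by rw [sg_em, hφv]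
    rw [← h1]
    refine sg_of_ga_fam (A k) A fun x hx1 hx2 hx3 => ?_
    rw [map_sum, LinearMap.sum_apply]
    have h2 : π (c x) = 0 := (hπ0 _).2 ⟨⟨x.1, x.2, hx3, hx2⟩, rfl⟩
    have h3 := hπk (c x) k i
    rw [h2] at h3
    refine Eq.trans (Finset.sum_congr rfl fun j _ => ?_) h3.symm
    rw [ga_em]
    rfl
  -- the factorization
  let f1 : aUF A →ₗ[ℚ] Module.End ℚ (Fin V.1 → ℚ) :=
    { toFun := fun x => x.1.1 V
      map_add' := fun _ _ => rfl
      map_smul' := fun _ _ => rfl }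
  obtain ⟨h', hh'⟩ := exists_fac (E1 := aUF A) (E2 := Module.End ℚ (Fin V.1 → ℚ))
    (E3 := ∀ q : Σ k, Fin (m k), (A q.1).toAbVar.H1) f1 (c ∘ₗ iUF A) (by
      rintro ⟨x, hx0, hx1, hx2⟩ hx
      funext q
      obtain ⟨k, hk⟩ := hφ q.1 q.2
      have h2 : ga (A q.1) (φ q.1 q.2) ⟨x, hx0⟩ = k (rh (A q.1) V ⟨x, hx0⟩) :=
        (LinearMap.congr_fun hk _).symm
      have h3 : rh (A q.1) V ⟨x, hx0⟩ = 0 := Prod.ext hx (Prod.ext (hx1 q.1) hx2)
      change ga (A q.1) (φ q.1 q.2) ⟨x, hx0⟩ = 0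
      rw [h2, h3, map_zero])
  let jj : (∀ k, hullQ (A k) (v k)) →ₗ[ℚ] (∀ q : Σ k, Fin (m k), (A q.1).toAbVar.H1) :=
    { toFun := fun z q => (z q.1).1 q.2
      map_add' := fun _ _ => rfl
      map_smul' := fun _ _ => rfl }
  have hjj : Function.Injective jj := by
    intro z z' h
    funext k
    refine Subtype.ext (funext fun i => ?_)
    exact congrFun h ⟨k, i⟩
  have hs : LinearMap.range jj ≤ LinearMap.range h' := by
    rintro _ ⟨z, rfl⟩
    have h1 : jj z ∈ LinearMap.range (c ∘ₗ iUF A) := by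
      rw [← hπ0]
      funext p
      obtain ⟨k, i⟩ := p
      rw [hπk]
      exact (z k).2 (e k i) (hrel k i)
    obtain ⟨x, hx⟩ := h1
    exact ⟨f1 x, (hh' x).trans hx⟩
  have h5 := (Submodule.finrank_mono hs).trans (LinearMap.finrank_range_le h')
  rw [LinearMap.finrank_range_of_inj hjj, Module.finrank_pi_fintype, Module.finrank_linearMap,
    Module.finrank_fin_fun] at h5
  exact h5

end fam

end Pool.Agent.N192.GC
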