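import Pool.Agent.N192.GC.Coc

set_option autoImplicit false
set_option linter.unusedSectionVars false
set_option linter.unusedVariables false

/-!
# The exceptional points for a structure
-/

open Module Function TensorProduct Matrix

noncomputable section

namespace Pool.Agent.N192.GC

open Pool.Agent.Y102 Pool.Agent.W516.DR Pool.Agent.H204R3.GP Pool.Agent.W516.KC
  Pool.Agent.H204R3.SP Pool.Agent.TH119.MX Pool.Agent.R917.OM Pool.Agent.R917.BX
  Pool.Agent.N192.MO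
open Pool.Agent.N192.GP (NN tt DRS UU RU LU gU LU_le LU_br gU_mem DA ηA NN_reindex brU_snd brU_fst)

section lin

variable {E1 E2 E3 : Type} [AddCommGroup E1] [Module ℚ E1] [AddCommGroup E2] [Module ℚ E2]
  [AddCommGroup E3] [Module ℚ E3]

theorem fin_map (K : Submodule ℚ E1) (σ : E1 →ₗ[ℚ] E2) (τ : E1 →ₗ[ℚ] E3) (T : Submodule ℚ E3)
    (P : Submodule ℚ E2) [FiniteDimensional ℚ T] [FiniteDimensional ℚ P]
    (h1 : ∀ φ ∈ K, τ φ ∈ T) (h2 : ∀ φ ∈ K, τ φ = 0 → σ φ ∈ P) :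
    Module.Finite ℚ (K.map σ) ∧ finrank ℚ (K.map σ) ≤ finrank ℚ P + finrank ℚ T := by
  let τK : K →ₗ[ℚ] T := (τ ∘ₗ K.subtype).codRestrict T fun φ => h1 φ.1 φ.2
  let qσ : K →ₗ[ℚ] E2 ⧸ P := P.mkQ ∘ₗ σ ∘ₗ K.subtype
  have hker : LinearMap.ker τK ≤ LinearMap.ker qσ := by
    intro φ hφ
    have h3 : τ φ.1 = 0 := congrArg Subtype.val (LinearMap.mem_ker.1 hφ)
    exact LinearMap.mem_ker.2 ((Submodule.Quotient.mk_eq_zero P).2 (h2 φ.1 φ.2 h3))
  have hf1 : Module.Finite ℚ (K ⧸ LinearMap.ker τK) :=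
    Module.Finite.equiv τK.quotKerEquivRange.symm
  have hr1 : finrank ℚ (K ⧸ LinearMap.ker τK) ≤ finrank ℚ T := by
    rw [τK.quotKerEquivRange.finrank_eq]
    exact Submodule.finrank_le _
  let S := K.map σ
  let q' : S →ₗ[ℚ] E2 ⧸ P := P.mkQ ∘ₗ S.subtype
  have hrange : LinearMap.range q' = LinearMap.range ((LinearMap.ker τK).liftQ qσ hker) := by
    rw [Submodule.range_liftQ]
    ext y
    constructor
    · rintro ⟨⟨_, ⟨φ, hφ, rfl⟩⟩, rfl⟩
      exact ⟨⟨φ, hφ⟩, rfl⟩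
    · rintro ⟨⟨φ, hφ⟩, rfl⟩
      exact ⟨⟨σ φ, ⟨φ, hφ, rfl⟩⟩, rfl⟩
  have hf2 : Module.Finite ℚ (LinearMap.range q') := by
    rw [hrange]
    infer_instance
  have hr2 : finrank ℚ (LinearMap.range q') ≤ finrank ℚ T := by
    rw [hrange]
    exact (LinearMap.finrank_range_le _).trans hr1
  let j : LinearMap.ker q' →ₗ[ℚ] P :=
    (S.subtype ∘ₗ (LinearMap.ker q').subtype).codRestrict P fun x =>
      (Submodule.Quotient.mk_eq_zero P).1 (LinearMap.mem_ker.1 x.2)
  have hj : Function.Injective j := fun x y hxy =>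
    Subtype.ext (Subtype.ext (congrArg (fun z : P => (z : E2)) hxy))
  have hf3 : Module.Finite ℚ (LinearMap.ker q') := Module.Finite.of_injective j hj
  have hr3 : finrank ℚ (LinearMap.ker q') ≤ finrank ℚ P :=
    LinearMap.finrank_le_finrank_of_injective hj
  have hf4 : Module.Finite ℚ (S ⧸ LinearMap.ker q') :=
    Module.Finite.equiv q'.quotKerEquivRange.symm
  have hf5 : Module.Finite ℚ S := Module.Finite.of_submodule_quotient (LinearMap.ker q')
  refine ⟨hf5, ?_⟩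
  have h3 := Submodule.finrank_quotient_add_finrank (LinearMap.ker q')
  rw [q'.quotKerEquivRange.finrank_eq] at h3
  change finrank ℚ S ≤ _
  omega

theorem exists_fac (f : E1 →ₗ[ℚ] E2) (h : E1 →ₗ[ℚ] E3) (hk0 : ∀ x, f x = 0 → h x = 0) :
    ∃ h' : E2 →ₗ[ℚ] E3, ∀ x, h' (f x) = h x := by
  have hk : LinearMap.ker f ≤ LinearMap.ker h := fun x hx =>
    LinearMap.mem_ker.2 (hk0 x (LinearMap.mem_ker.1 hx))
  obtain ⟨h', hh'⟩ := LinearMap.exists_extend (p := LinearMap.range f)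
    (((LinearMap.ker f).liftQ h hk) ∘ₗ f.quotKerEquivRange.symm.toLinearMap)
  refine ⟨h', fun x => ?_⟩
  have h4 := LinearMap.congr_fun hh' ⟨f x, ⟨x, rfl⟩⟩
  have h5 : f.quotKerEquivRange.symm ⟨f x, ⟨x, rfl⟩⟩ = (LinearMap.ker f).mkQ x := by
    rw [LinearEquiv.symm_apply_eq]
    rfl
  refine Eq.trans h4 ?_
  change ((LinearMap.ker f).liftQ h hk) (f.quotKerEquivRange.symm ⟨f x, ⟨x, rfl⟩⟩) = _
  rw [h5, Submodule.mkQ_apply, Submodule.liftQ_apply]

end lin

section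

variable {g : ℕ} (A : AbVarG g)

/-- The endomorphisms of the abelian variety. -/
def EE : Submodule ℚ (Module.End ℚ A.toAbVar.H1 × ((Fin g → ℂ) →ₗ[ℂ] (Fin g → ℂ))) where
  carrier := {e | (∀ w, A.toAbVar.per (e.1 w) = e.2 (A.toAbVar.per w)) ∧ e.1 ∈ A.toAbVar.EA}
  zero_mem' := ⟨fun w => by
    change A.toAbVar.per 0 = 0
    exact map_zero _, Submodule.zero_mem _⟩
  add_mem' := by
    rintro e e' ⟨h1, h2⟩ ⟨h1', h2'⟩
    refine ⟨fun w => ?_, Submodule.add_mem _ h2 h2'⟩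
    change A.toAbVar.per (e.1 w + e'.1 w) = e.2 _ + e'.2 _
    rw [map_add, h1, h1']
  smul_mem' := by
    rintro c e ⟨h1, h2⟩
    refine ⟨fun w => ?_, Submodule.smul_mem _ c h2⟩
    change A.toAbVar.per (c • e.1 w) = c • e.2 _
    rw [map_smul, h1]

/-- The logarithms of the algebraic points, outside of the divisor of `θ 0`. -/
abbrev pts : Type := {u : Fin g → ℂ // IsPoint A.toAbVar u}

/-- The integrals of the first and the second kind. -/
def hh (u : Fin g → ℂ) : Fin g ⊕ Fin g → ℂ :=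
  Sum.elim u fun k => pd k (A.θ 0) u / A.θ 0 u - pd k (A.θ 0) 0

/-- The sum of the multiples of the points. -/
def sg : (pts A →₀ EE A) →ₗ[ℚ] (Fin g → ℂ) :=
  Finsupp.lsum ℚ fun u =>
    { toFun := fun e => e.1.2 u.1
      map_add' := fun _ _ => rfl
      map_smul' := fun _ _ => rfl }

/-- The combination of the cocycles. -/
def ga : (pts A →₀ EE A) →ₗ[ℚ] (LU →ₗ[ℚ] A.toAbVar.H1) :=
  Finsupp.lsum ℚ fun u =>
    { toFun := fun e => (e.1.1 ∘ₗ cc A.toAbVar (hh A u.1)) ∘ₗ LU.subtype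
      map_add' := fun _ _ => rfl
      map_smul' := fun _ _ => rfl }

variable (V : UU)

/-- The space of the endomorphisms of the structures. -/
abbrev ET : Type := Module.End ℚ (Fin V.1 → ℚ) × Module.End ℚ (Fin (2 * g) → ℚ) × ℚ

/-- The action on the structures. -/
def rh : LU →ₗ[ℚ] ET (g := g) V where
  toFun x := (x.1.1 V, (x.1.1 (UAA A.toAbVar) : Module.End ℚ (Fin (2 * g) → ℚ)), x.1.2)
  map_add' _ _ := rfl
  map_smul' _ _ := rfl

/-- The maps which factor. -/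
def fac : Submodule ℚ (LU →ₗ[ℚ] A.toAbVar.H1) :=
  LinearMap.range (LinearMap.lcomp ℚ A.toAbVar.H1 (rh A V))

/-- **The exceptional points.** -/
def Gam : Submodule ℚ (Fin g → ℂ) := ((fac A V).comap (ga A)).map (sg A)

instance : FiniteDimensional ℚ (fac A V) := by
  unfold fac
  infer_instance

theorem fac_le : finrank ℚ (fac A V) ≤ (V.1 * V.1 + ((2 * g) * (2 * g) + 1)) * (2 * g) := by
  refine (LinearMap.finrank_range_le _).trans (le_of_eq ?_)
  rw [Module.finrank_linearMap, Module.finrank_prod, Module.finrank_prod, Module.finrank_linearMap,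
    Module.finrank_linearMap, Module.finrank_self, Module.finrank_fin_fun, Module.finrank_fin_fun]

theorem lsum_eq {N : Type} [AddCommGroup N] [Module ℚ N] (h : pts A → EE A →ₗ[ℚ] N)
    (φ : pts A →₀ EE A) : Finsupp.lsum ℚ h φ =
      ∑ i : Fin φ.support.card, h (φ.support.equivFin.symm i).1 (φ (φ.support.equivFin.symm i).1) := by
  rw [Finsupp.lsum_apply]
  unfold Finsupp.sum
  rw [← Finset.sum_coe_sort φ.support]
  exact (Equiv.sum_comp φ.support.equivFin.symm fun i : φ.support => h i.1 (φ i.1)).symm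

/-- Combinations with trivial cocycle are periods. -/
theorem sg_of_ga' {φ : pts A →₀ EE A}
    (hφ : ∀ x : LU, x.1.1 (UAA A.toAbVar) = 0 → x.1.2 = 0 → ga A φ x = 0) :
    sg A φ ∈ LinearMap.range A.toAbVar.per := by
  let e := φ.support.equivFin.symm
  let D : Dt g φ.support.card 0 := ⟨Sum.elim (fun i => hh A (e i).1.1) Fin.elim0, fun _ _ => 0⟩
  let f : Fin φ.support.card ⊕ Fin 0 → Module.End ℚ A.toAbVar.H1 :=
    Sum.elim (fun i => (φ (e i).1).1.1) Fin.elim0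
  let F : Fin φ.support.card ⊕ Fin 0 → (Fin g → ℂ) →ₗ[ℂ] (Fin g → ℂ) :=
    Sum.elim (fun i => (φ (e i).1).1.2) Fin.elim0
  obtain ⟨K₁, hK₁, hrat⟩ := exists_rat_mult A (pt D) (by
    rintro (i | l)
    · exact Or.inl (e i).1.2
    · exact l.elim0)
  obtain ⟨w, hw⟩ := rel_of (A := A) (D := D) hrat (f := f) (F := F) (by
    rintro (i | l) w
    · exact (φ (e i).1).2.1 w
    · exact l.elim0) (by
    rintro L ⟨x, hx, h⟩ g1 g2
    rw [Fintype.sum_sum_type, Finset.univ_eq_empty (α := Fin 0), Finset.sum_empty, add_zero]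
    have h1 : ga A φ ⟨x, hx⟩ = 0 := by
      refine hφ ⟨x, hx⟩ ?_ ?_
      · refine Eq.trans h.rl.ab ?_
        unfold op
        rw [g1, g2, zero_smul, add_zero]
        rfl
      · refine Eq.trans h.rl.tw ?_
        rw [g2, mul_zero]
    unfold ga at h1
    rw [lsum_eq, LinearMap.sum_apply] at h1
    rw [← h1]
    refine Finset.sum_congr rfl fun i _ => ?_
    change f (Sum.inl i) _ = (φ (e i).1).1.1 (cc A.toAbVar (hh A (e i).1.1) x)
    rw [← h.cc (Sum.inl i)]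
    rfl)
  refine ⟨w, ?_⟩
  rw [← hw, Fintype.sum_sum_type, Finset.univ_eq_empty (α := Fin 0), Finset.sum_empty, add_zero]
  unfold sg
  rw [lsum_eq]
  rfl

theorem sg_of_ga {φ : pts A →₀ EE A} (hφ : ga A φ = 0) :
    sg A φ ∈ LinearMap.range A.toAbVar.per :=
  sg_of_ga' A fun x _ _ => by
    rw [hφ]
    rfl

/-- **The exceptional points form a space of finite dimension.** -/
theorem Gam_fin : Module.Finite ℚ (Gam A V) ∧ finrank ℚ (Gam A V) ≤
    2 * g + (V.1 * V.1 + ((2 * g) * (2 * g) + 1)) * (2 * g) := by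
  have h0 : Gam A V = (((fac A V).comap (ga A)).map ((sg A).prod (ga A))).map
      (LinearMap.fst ℚ (Fin g → ℂ) (LU →ₗ[ℚ] A.toAbVar.H1)) := by
    rw [← Submodule.map_comp]
    rfl
  rw [h0]
  obtain ⟨h1, h2⟩ := fin_map (((fac A V).comap (ga A)).map ((sg A).prod (ga A)))
    (LinearMap.fst ℚ (Fin g → ℂ) (LU →ₗ[ℚ] A.toAbVar.H1))
    (LinearMap.snd ℚ (Fin g → ℂ) (LU →ₗ[ℚ] A.toAbVar.H1)) (fac A V)
    (LinearMap.range A.toAbVar.per) (by
      rintro _ ⟨φ, hφ, rfl⟩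
      exact hφ) (by
      rintro _ ⟨φ, _, rfl⟩ hφ
      exact sg_of_ga A hφ)
  refine ⟨h1, h2.trans (add_le_add ?_ (fac_le A V))⟩
  refine (LinearMap.finrank_range_le _).trans (le_of_eq ?_)
  exact Module.finrank_fin_fun ℚ

variable {A V} {n s : ℕ} {D : Dt g n s}

variable (A V D) in
/-- The tuples of the elements which act trivially on the structures. -/
def kD : Submodule ℚ (Tup A.toAbVar n s) where
  carrier := {L | ∃ x ∈ LU, RlC A.toAbVar D x L ∧ x.1 V = 0 ∧ x.1 (UAA A.toAbVar) = 0 ∧ x.2 = 0}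
  zero_mem' := ⟨0, LU.zero_mem, RlC.zero, rfl, rfl, rfl⟩
  add_mem' := by
    rintro L L' ⟨x, hx, h, h1, h2, h3⟩ ⟨y, hy, h', h1', h2', h3'⟩
    refine ⟨x + y, LU.add_mem hx hy, h.add h', ?_, ?_, ?_⟩
    · rw [Prod.fst_add, Pi.add_apply, h1, h1', add_zero]
    · rw [Prod.fst_add, Pi.add_apply, h2, h2', add_zero]
    · rw [Prod.snd_add, h3, h3', add_zero]
  smul_mem' := by
    rintro c L ⟨x, hx, h, h1, h2, h3⟩
    refine ⟨c • x, LU.smul_mem c hx, h.smul c, ?_, ?_, ?_⟩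
    · rw [Prod.smul_fst, Pi.smul_apply, h1, smul_zero]
    · rw [Prod.smul_fst, Pi.smul_apply, h2, smul_zero]
    · rw [Prod.smul_snd, h3, smul_zero]

theorem kD_unip {L : Tup A.toAbVar n s} (hL : L ∈ kD A V D) : L.1 = 0 ∧ L.2.1 = 0 := by
  obtain ⟨x, hx, h, h1, h2, h3⟩ := hL
  have h4 : L.2.1 = 0 := by
    have h5 := h.rl.tw
    rw [h3] at h5
    linarith
  refine ⟨?_, h4⟩
  have h5 : op L = L.1 := by
    unfold op
    rw [h4, zero_smul, add_zero]
  rw [← h5, ← h.rl.ab]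
  exact h2

theorem kD_br {L L' : Tup A.toAbVar n s} (hL : L ∈ gD A.toAbVar D) (hL' : L' ∈ kD A V D) :
    Pool.Agent.R917.OM.br L L' ∈ kD A V D := by
  obtain ⟨x, hx, h⟩ := hL
  obtain ⟨y, hy, h', h1, h2, h3⟩ := hL'
  refine ⟨x * y - y * x, LU_br x hx y hy, h.br h', ?_, ?_, brU_snd x y⟩
  · rw [brU_fst, h1, mul_zero, zero_mul, sub_zero]
  · rw [brU_fst, h2, mul_zero, zero_mul, sub_zero]

theorem kD_le {L : Tup A.toAbVar n s} (hL : L ∈ kD A V D) : L ∈ gD A.toAbVar D := by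
  obtain ⟨x, hx, h, -⟩ := hL
  exact ⟨x, hx, h⟩

/-- **The unipotent part of weight `-1` is given by the relations modulo the exceptional points.** -/
theorem mem_uu_of {u : Fin n ⊕ Fin s → Fin g → ℂ} (hu : ∀ p, IsPoint A.toAbVar (u p))
    (hD : ∀ p, D.P p = hh A (u p)) {z : (Fin n ⊕ Fin s) → A.toAbVar.H1}
    (hz : ∀ e : Fin n ⊕ Fin s → EE A, ∑ p, (e p).1.2 (u p) ∈ Gam A V →
      ∑ p, (e p).1.1 (z p) = 0) : z ∈ uu (kD A V D) := by
  classical
  have hLg := gD_Lg (A := A.toAbVar) (D := D)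
  obtain ⟨π, hπ2, hπ0, hπc⟩ := exists_proj_aux hLg.full.semi (uu (kD A V D)) (by
    rintro _ ⟨L, hL, rfl⟩ z ⟨t, ht⟩
    have h1 := kD_br hL ht
    have h2 : (fun p => op L (z p)) ∈ uu (kD A V D) := by
      refine ⟨(Pool.Agent.R917.OM.br L ((0, 0, z, t) : Tup A.toAbVar n s)).2.2.2, ?_⟩
      convert h1 using 1
      refine Prod.ext ?_ (Prod.ext ?_ (Prod.ext ?_ rfl))
      · change (0 : Module.End ℚ A.toAbVar.H1) = L.1 * 0 - 0 * L.1
        rw [mul_zero, zero_mul, sub_zero]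
      · rfl
      · funext p
        change op L (z p) = op L (z p) - op ((0, 0, z, t) : Tup A.toAbVar n s) (L.2.2.1 p)
        rw [op_apply ((0, 0, z, t) : Tup A.toAbVar n s)]
        simp
    have h3 := (uu (kD A V D)).sub_mem h2 ((uu (kD A V D)).smul_mem L.2.1 ⟨t, ht⟩)
    convert h3 using 1
    funext p
    change L.1 (z p) = op L (z p) - L.2.1 • z p
    rw [op_apply, add_sub_cancel_right])
  let f : (Fin n ⊕ Fin s) → (Fin n ⊕ Fin s) → Module.End ℚ A.toAbVar.H1 := fun p q =>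
    (LinearMap.proj p ∘ₗ π) ∘ₗ LinearMap.single ℚ (fun _ => A.toAbVar.H1) q
  have hfπ : ∀ z p, π z p = ∑ q, f p q (z q) := by
    intro z p
    have h1 : z = ∑ q, (LinearMap.single ℚ (fun _ => A.toAbVar.H1) q (z q)) := by
      funext q
      rw [Finset.sum_apply, Finset.sum_eq_single q]
      · simp
      · intro b _ hb
        simp [hb.symm]
      · intro hq
        exact absurd (Finset.mem_univ _) hq
    conv_lhs => rw [h1, map_sum, Finset.sum_apply]
    rfl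
  have hfc : ∀ p q, ∀ Y ∈ aa (gD A.toAbVar D), Y * f p q = f p q * Y := by
    intro p q Y hY
    refine LinearMap.ext fun x => ?_
    have h1 := congrFun (hπc Y hY (Pi.single q x)) p
    have h2 : (fun p => Y ((Pi.single q x : (Fin n ⊕ Fin s) → A.toAbVar.H1) p)) =
        (Pi.single q (Y x) : (Fin n ⊕ Fin s) → A.toAbVar.H1) := by
      funext p'
      by_cases hp : p' = q
      · subst hp
        rw [Pi.single_eq_same, Pi.single_eq_same]
      · rw [Pi.single_eq_of_ne hp, Pi.single_eq_of_ne hp, map_zero]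
    rw [h2] at h1
    exact h1.symm
  have hEA : ∀ p q, f p q ∈ A.toAbVar.EA := fun p q => A.toAbVar.mem_EA.2
    (A.toAbVar.end_of_central (𝔥 := aa (gD A.toAbVar D))
      (fun D' lam => ⟨_, hLg.per D' lam, rfl⟩) (hfc p q))
  choose F hF using fun p q => A.toAbVar.hodge_end (A.toAbVar.mem_EA.1 (hEA p q))
  let e : (Fin n ⊕ Fin s) → (Fin n ⊕ Fin s) → EE A := fun p q =>
    ⟨(f p q, F p q), fun w => (hF p q w).symm, hEA p q⟩
  have hzero : ∀ p, ∑ q, f p q (z q) = 0 := by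
    intro p
    refine hz (e p) ?_
    let φ : pts A →₀ EE A := ∑ q, Finsupp.single ⟨u q, hu q⟩ (e p q)
    have hga : ga A φ = ∑ q, (f p q ∘ₗ cc A.toAbVar (hh A (u q))) ∘ₗ LU.subtype := by
      simp only [φ]
      rw [map_sum]
      refine Finset.sum_congr rfl fun q _ => ?_
      unfold ga
      rw [Finsupp.lsum_single]
      rfl
    have hsg : sg A φ = ∑ q, (e p q).1.2 (u q) := by
      simp only [φ]
      rw [map_sum]
      refine Finset.sum_congr rfl fun q _ => ?_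
      unfold sg
      rw [Finsupp.lsum_single]
      rfl
    clear_value φ
    refine ⟨φ, ?_, hsg⟩
    change ga A φ ∈ LinearMap.range (LinearMap.lcomp ℚ A.toAbVar.H1 (rh A V))
    obtain ⟨G, hG⟩ : ∃ G : LU →ₗ[ℚ] A.toAbVar.H1, G = ga A φ := ⟨_, rfl⟩
    rw [← hG] at hga ⊢
    clear hG hsg φ
    have hk : ∀ x, rh A V x = 0 → G x = 0 := by
      rintro ⟨x, hx⟩ hx0
      have h1 : (x.1 V, (x.1 (UAA A.toAbVar) : Module.End ℚ (Fin (2 * g) → ℚ)), x.2) = 0 := hx0
      have e1 : x.1 V = 0 := congrArg Prod.fst h1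
      have e2 : x.1 (UAA A.toAbVar) = 0 := congrArg (fun t => t.2.1) h1
      have e3 : x.2 = 0 := congrArg (fun t => t.2.2) h1
      obtain ⟨L, hL⟩ := exists_RlC A.toAbVar D hx
      have hLk : L ∈ kD A V D := ⟨x, hx, hL, e1, e2, e3⟩
      obtain ⟨g1, g2⟩ := kD_unip hLk
      have hz : L.2.2.1 ∈ uu (kD A V D) := by
        refine ⟨L.2.2.2, ?_⟩
        convert hLk using 1
        exact Prod.ext g1.symm (Prod.ext g2.symm rfl)
      have h2 := (hπ0 _).2 hz
      have h3 := hfπ L.2.2.1 p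
      rw [h2] at h3
      rw [hga, LinearMap.sum_apply]
      refine Eq.trans (Finset.sum_congr rfl fun q _ => ?_) h3.symm
      change f p q (cc A.toAbVar (hh A (u q)) x) = f p q (L.2.2.1 q)
      rw [← hD q, hL.cc q]
    clear hga
    obtain ⟨h', hh'⟩ := exists_fac (E1 := LU) (E2 := ET (g := g) V) (E3 := A.toAbVar.H1) (rh A V) G hk
    exact ⟨h', LinearMap.ext hh'⟩
  rw [← hπ0]
  funext p
  rw [hfπ]
  exact hzero p

end

end Pool.Agent.N192.GC
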