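import Pool.Agent.N192.GC.Gam

set_option autoImplicit false
set_option linter.unusedSectionVars false
set_option linter.unusedVariables false

/-!
# Groups which contain the periods of a 1-motive and of a structure
-/

open Module Function TensorProduct Matrix

noncomputable section

namespace Pool.Agent.N192.GC

open Pool.Agent.Y102 Pool.Agent.W516.DR Pool.Agent.H204R3.GP Pool.Agent.W516.KC
  Pool.Agent.H204R3.SP Pool.Agent.TH119.MX Pool.Agent.R917.OM Pool.Agent.R917.BX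
  Pool.Agent.N192.MO
open Pool.Agent.N192.GP (NN tt DRS UU RU LU gU LU_le LU_br gU_mem DA ηA NN_reindex brU_snd brU_fst
  Bt eB act act_apply eB_apply LG map_resU resU DRS.basis)
open Pool.Agent.N192.GT (tC tC_apply PW PW_apply PtW bB alg_invR stab_sumW lieW exp_fb)
open Pool.Agent.N208.UR (Fl mem_Fl lev lev_le DD unip_eq exp_three exists_tup cqm cqm_apply)
open Pool.Agent.R917 (lamF lamF_apply QQ QA)

section lev2

variable {g n s : ℕ} {A : AbVarG g} {D : Dt g n s} {V : UU}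

/-- The brackets of elements of weight `-1`. -/
theorem tt_full (hg : 0 < g) (hU : ∀ z, z ∈ uu (kD A V D)) (t : Fin n → Fin s → ℚ) :
    ((0, 0, 0, t) : Tup A.toAbVar n s) ∈ kD A V D := by
  classical
  obtain ⟨a, b, hab⟩ : ∃ a b : A.toAbVar.H1, A.toAbVar.om a b = 1 := by
    let f : A.toAbVar.H1 →ₗ[ℚ] ℚ := LinearMap.proj (⟨0, by omega⟩ : Fin (2 * g))
    obtain ⟨u, hu⟩ := A.toAbVar.om_surj (f := f)
    refine ⟨u, Pi.single ⟨0, by omega⟩ 1, ?_⟩
    rw [hu]
    simp [f]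
  have key : ∀ i l, ((0, 0, 0, Pi.single i (Pi.single l 1)) : Tup A.toAbVar n s) ∈ kD A V D := by
    intro i l
    obtain ⟨t1, h1⟩ := hU (Pi.single (Sum.inr l) a)
    obtain ⟨t2, h2⟩ := hU (Pi.single (Sum.inl i) b)
    have h3 := kD_br (kD_le h1) h2
    convert h3 using 1
    refine Prod.ext ?_ (Prod.ext rfl (Prod.ext ?_ ?_))
    · change (0 : Module.End ℚ A.toAbVar.H1) = 0 * 0 - 0 * 0
      rw [mul_zero, sub_zero]
    · funext p
      change (0 : A.toAbVar.H1) = op _ _ - op _ _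
      rw [op_apply, op_apply]
      simp
    · funext i' l'
      change _ = A.toAbVar.om ((Pi.single (Sum.inr l) a : Fin n ⊕ Fin s → A.toAbVar.H1) (Sum.inr l'))
          ((Pi.single (Sum.inl i) b : Fin n ⊕ Fin s → A.toAbVar.H1) (Sum.inl i')) -
        A.toAbVar.om ((Pi.single (Sum.inl i) b : Fin n ⊕ Fin s → A.toAbVar.H1) (Sum.inr l'))
          ((Pi.single (Sum.inr l) a : Fin n ⊕ Fin s → A.toAbVar.H1) (Sum.inl i')) +
            2 * 0 * t2 i' l' - 2 * 0 * t1 i' l'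
      rw [Pi.single_eq_of_ne (i := Sum.inl i) (i' := Sum.inr l') Sum.inr_ne_inl,
        Pi.single_eq_of_ne (i := Sum.inr l) (i' := Sum.inl i') Sum.inl_ne_inr]
      by_cases hi : i' = i
      · subst hi
        by_cases hl : l' = l
        · subst hl
          rw [Pi.single_eq_same, Pi.single_eq_same, hab]
          simp
        · rw [Pi.single_eq_of_ne (fun h => hl (Sum.inr_injective h)), map_zero]
          simp [Pi.single_eq_of_ne hl]
      · rw [Pi.single_eq_of_ne (i := Sum.inl i) (i' := Sum.inl i') (fun h => hi (Sum.inl_injective h)),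
          map_zero]
        simp [Pi.single_eq_of_ne hi]
  have h4 : ((0, 0, 0, t) : Tup A.toAbVar n s) = ∑ i, ∑ l, t i l •
      ((0, 0, 0, Pi.single i (Pi.single l 1)) : Tup A.toAbVar n s) := by
    refine Prod.ext ?_ (Prod.ext ?_ (Prod.ext ?_ ?_))
    · simp [Prod.fst_sum]
    · simp [Prod.fst_sum, Prod.snd_sum]
    · simp [Prod.fst_sum, Prod.snd_sum]
    · funext i' l'
      simp only [Prod.snd_sum, Prod.smul_snd, Finset.sum_apply, Pi.smul_apply, smul_eq_mul]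
      rw [Finset.sum_eq_single i', Finset.sum_eq_single l']
      · simp
      · intro l _ hl
        simp [Pi.single_eq_of_ne (Ne.symm hl)]
      · intro h
        exact absurd (Finset.mem_univ _) h
      · intro i _ hi
        simp [Pi.single_eq_of_ne (Ne.symm hi)]
      · intro h
        exact absurd (Finset.mem_univ _) h
  rw [h4]
  exact Submodule.sum_mem _ fun i _ => Submodule.sum_mem _ fun l _ =>
    Submodule.smul_mem _ _ (key i l)

theorem all_full (hg : 0 < g) (hU : ∀ z, z ∈ uu (kD A V D)) {L : Tup A.toAbVar n s}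
    (h1 : L.1 = 0) (h2 : L.2.1 = 0) : L ∈ kD A V D := by
  obtain ⟨t, ht⟩ := hU L.2.2.1
  have h3 := (kD A V D).add_mem ht (tt_full hg hU (L.2.2.2 - t))
  convert h3 using 1
  refine Prod.ext ?_ (Prod.ext ?_ (Prod.ext ?_ ?_))
  · change L.1 = 0 + 0
    rw [h1, add_zero]
  · change L.2.1 = 0 + 0
    rw [h2, add_zero]
  · change L.2.2.1 = L.2.2.1 + 0
    rw [add_zero]
  · change L.2.2.2 = t + (L.2.2.2 - t)
    abel

end lev2

section Per

variable {g n s d : ℕ} (A : AbVar g) (D : Dt g n s) (V : DRS d)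

/-- The rows. -/
abbrev RU1 (g n s d : ℕ) : Type := RI g n s ⊕ Fin d

/-- The columns. -/
abbrev CU1 (g n s d : ℕ) : Type := CI g n s ⊕ Fin d

/-- The rows, in terms of families. -/
abbrev RF (g n s d : ℕ) : Type :=
  Row (K := Unit) (J := Unit) (fun _ => g) (fun _ => n) (fun _ => s) (fun _ => d)

/-- The equivalence of the rows. -/
def e0 (g n s d : ℕ) : RF g n s d ≃ RU1 g n s d where
  toFun := Sum.elim (fun x => Sum.inl x.2) (fun x => Sum.inr x.2)
  invFun := Sum.elim (fun x => Sum.inl ⟨(), x⟩) (fun x => Sum.inr ⟨(), x⟩)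
  left_inv := by rintro (⟨⟨⟩, x⟩ | ⟨⟨⟩, x⟩) <;> rfl
  right_inv := by rintro (x | x) <;> rfl

/-- The equivalence with the indices of the family. -/
def eR1 (g n s d : ℕ) : (Σ t, Fin (nM (K := Unit) (J := Unit) (fun _ => g) (fun _ => n) (fun _ => s)
    (fun _ => d) t)) ≃ RU1 g n s d :=
  (eR (K := Unit) (J := Unit) (fun _ => g) (fun _ => n) (fun _ => s) (fun _ => d)).trans
    (e0 g n s d)

/-- The basis of the Betti side. -/
abbrev bU1 (g n s d : ℕ) : Basis (RU1 g n s d) ℚ (Bt (nM (K := Unit) (J := Unit) (fun _ => g)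
    (fun _ => n) (fun _ => s) (fun _ => d))) :=
  (bB (nM (K := Unit) (J := Unit) (fun _ => g) (fun _ => n) (fun _ => s) (fun _ => d))).reindex
    (eR1 g n s d)

/-- The de Rham side. -/
abbrev fU1 : Basis (RU1 g n s d) ℂ (Bt (nM (K := Unit) (J := Unit) (fun _ => g) (fun _ => n)
    (fun _ => s) (fun _ => d)) →ₗ[ℚ] ℂ) :=
  (eB (ηM (K := Unit) (J := Unit) (fun _ => A) (fun _ => D) (fun _ => V))).reindex (eR1 g n s d)

/-- The matrix of the periods. -/
def per1 : Matrix (RU1 g n s d) (CU1 g n s d) ℂ :=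
  fromBlocks (pmat A D) 0 0 (Matrix.of fun p q => V.eta q (Pi.single p 1))

/-- The equivalence of the columns and the rows. -/
def eC1 (g n s d : ℕ) : CU1 g n s d ≃ RU1 g n s d := Equiv.sumCongr (ce g n s) (Equiv.refl _)

/-- The equivalence of the columns. -/
def cF (c : CU1 g n s d) :
    Col (K := Unit) (J := Unit) (fun _ => g) (fun _ => n) (fun _ => s) (fun _ => d) :=
  Sum.elim (fun x => Sum.inl ⟨(), x⟩) (fun x => Sum.inr ⟨(), x⟩) c

theorem per_eq1 : per1 A D V = (PW (bU1 g n s d) (fU1 A D V)).submatrix id (eC1 g n s d) := by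
  ext x c
  have h1 := congrFun (congrFun (per_eq (K := Unit) (J := Unit) (fun _ => A) (fun _ => D)
    (fun _ => V)) ((e0 g n s d).symm x)) (cF c)
  have h2 : perM (K := Unit) (J := Unit) (fun _ => A) (fun _ => D) (fun _ => V)
      ((e0 g n s d).symm x) (cF c) = per1 A D V x c := by
    unfold per1 perM
    rcases x with r | p <;> rcases c with k | q
    · exact blockDiagonal'_apply_eq (fun _ : Unit => pmat A D) () r k
    · rfl
    · rfl
    · exact blockDiagonal'_apply_eq (fun _ : Unit => (Matrix.of fun p q => V.eta q (Pi.single p 1) :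
        Matrix (Fin d) (Fin d) ℂ)) () p q
  rw [← h2, h1]
  have h3 : eC (K := Unit) (J := Unit) (fun _ => g) (fun _ => n) (fun _ => s) (fun _ => d) (cF c) =
      (e0 g n s d).symm (eC1 g n s d c) := by
    rcases c with k | q <;> rfl
  rw [Matrix.submatrix_apply, Matrix.submatrix_apply, h3, id, id, PW_apply, PW_apply, bR_apply,
    fR_apply, Basis.reindex_apply, Basis.reindex_apply]
  rfl

variable {A D V}

theorem pt_of1 {G : Subgroup (GL (RU1 g n s d) ℂ)}
    (hG : ∃ S : Set (MvPolynomial (RU1 g n s d × RU1 g n s d) ℚ), ∀ x : GL (RU1 g n s d) ℂ,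
      x ∈ G ↔ ∀ p ∈ S, MvPolynomial.aeval
        (fun b : RU1 g n s d × RU1 g n s d => (x : Matrix _ _ ℂ) b.1 b.2) p = 0)
    {T : Matrix (CU1 g n s d) (RU1 g n s d) ℂ} (hT : ∀ i j, IsAlgebraic ℚ (T i j))
    {x : GL (RU1 g n s d) ℂ} (hx : x ∈ G) (hxT : (x : Matrix _ _ ℂ) = per1 A D V * T) :
    PtW (bU1 g n s d) (fU1 A D V)
      {M : Matrix (RU1 g n s d) (RU1 g n s d) ℂ | ∃ x ∈ G, (x : Matrix _ _ ℂ) = M} := by
  refine ⟨R917.algGrp_of hG, ?_⟩
  have h1 : PW (bU1 g n s d) (fU1 A D V) * T.submatrix (eC1 g n s d).symm id =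
      per1 A D V * T := by
    rw [per_eq1]
    have h2 : (PW (bU1 g n s d) (fU1 A D V)).submatrix id (eC1 g n s d) * T =
        ((PW (bU1 g n s d) (fU1 A D V)).submatrix id (eC1 g n s d)).submatrix id
          (eC1 g n s d).symm * T.submatrix (eC1 g n s d).symm id := by
      rw [Matrix.submatrix_mul_equiv, Matrix.submatrix_id_id]
    rw [h2, Matrix.submatrix_submatrix, Equiv.self_comp_symm]
    rfl
  have h2 : (T.submatrix (eC1 g n s d).symm id).det ≠ 0 := by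
    intro h0
    have h3 : (x : Matrix (RU1 g n s d) (RU1 g n s d) ℂ).det = 0 := by
      rw [hxT, ← h1, Matrix.det_mul, h0, mul_zero]
    exact (Matrix.GeneralLinearGroup.det x).ne_zero h3
  obtain ⟨T', h3, h4⟩ := alg_invR (T := T.submatrix (eC1 g n s d).symm id) (fun i j => hT _ _) h2
  exact ⟨_, T', h3, h4, ⟨x, hx, by rw [hxT, h1]⟩⟩

theorem repU (z : Bt (nM (K := Unit) (J := Unit) (fun _ => g) (fun _ => n) (fun _ => s)
    (fun _ => d))) (a : RU1 g n s d) : (bU1 g n s d).repr z a =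
      (bR (K := Unit) (J := Unit) (fun _ => g) (fun _ => n) (fun _ => s) (fun _ => d)).repr z
        ((e0 g n s d).symm a) := by
  rw [Basis.repr_reindex_apply, rep_bR]
  rfl

/-- Elements of the universal Lie algebra give elements of the Lie algebra of the group. -/
theorem stab1 {H : Set (Matrix (RU1 g n s d) (RU1 g n s d) ℂ)}
    (hH : PtW (bU1 g n s d) (fU1 A D V) H) {x : RU} (hx : x ∈ LU)
    (hV : x.1 ⟨d, V⟩ = 0) {L : Tup A n s} (hL : RlA A D x L) (δ : ℕ) :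
    Stab H δ (fromBlocks (mt L) 0 0 0) := by
  have h1 := PtW.LG_mem (ηM (K := Unit) (J := Unit) (fun _ => A) (fun _ => D) (fun _ => V))
    (eR1 g n s d) (eR1 g n s d) hH (mem_LG (K := Unit) (J := Unit) (fun _ => A) (fun _ => D)
      (fun _ => V) hx) δ
  have h2 := tC_act (K := Unit) (J := Unit) (A := fun _ => A)
    (X := (resU (σM (K := Unit) (J := Unit) (fun _ => A) (fun _ => D) (fun _ => V))
      (ρM (K := Unit) (J := Unit) (fun _ => A) (fun _ => D) (fun _ => V)) x).1)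
    (L := fun _ => L) (fun _ => hL.mot) (fun _ => hV)
  have h3 : (tC (bU1 g n s d) (act (resU (σM (K := Unit) (J := Unit) (fun _ => A) (fun _ => D)
      (fun _ => V)) (ρM (K := Unit) (J := Unit) (fun _ => A) (fun _ => D) (fun _ => V)) x).1))ᵀ =
      fromBlocks (mt L) 0 0 0 := by
    ext i j
    have h4 := congrFun (congrFun h2 ((e0 g n s d).symm i)) ((e0 g n s d).symm j)
    rw [Matrix.transpose_apply, tC_apply, repU, Basis.reindex_apply]
    rw [Matrix.transpose_apply, tC_apply, bR_apply] at h4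
    refine Eq.trans h4 ?_
    rcases i with r | p <;> rcases j with r' | p'
    · exact blockDiagonal'_apply_eq (fun _ : Unit => mt L) () r r'
    · rfl
    · rfl
    · rfl
  rw [← h3]
  exact h1

end Per

section Main

variable {g n s d : ℕ} {A : AbVarG g} {D : Dt g n s} {V : DRS d}

/-- **Unipotent elements of the group.** -/
theorem unip_in1 {G : Subgroup (GL (RU1 g n s d) ℂ)}
    (hG : ∃ S : Set (MvPolynomial (RU1 g n s d × RU1 g n s d) ℚ), ∀ x : GL (RU1 g n s d) ℂ,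
      x ∈ G ↔ ∀ p ∈ S, MvPolynomial.aeval
        (fun b : RU1 g n s d × RU1 g n s d => (x : Matrix _ _ ℂ) b.1 b.2) p = 0)
    {T : Matrix (CU1 g n s d) (RU1 g n s d) ℂ} (hT : ∀ i j, IsAlgebraic ℚ (T i j))
    {p : GL (RU1 g n s d) ℂ} (hp : p ∈ G) (hpT : (p : Matrix _ _ ℂ) = per1 A.toAbVar D V * T)
    {N : Matrix (RI g n s) (RI g n s) ℂ} (hN : N * N * N = 0) {ι : Type} (S : Finset ι)
    (c : ι → ℂ) (L : ι → Tup A.toAbVar n s) (hL : ∀ b, L b ∈ kD A ⟨d, V⟩ D)
    (hNL : N = ∑ b ∈ S, c b • mt (L b)) :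
    ∃ y ∈ G, (y : Matrix (RU1 g n s d) (RU1 g n s d) ℂ) =
      fromBlocks (1 + N + (2 : ℂ)⁻¹ • (N * N)) 0 0 1 := by
  classical
  have hH := pt_of1 hG hT hp hpT
  have hst : ∀ b δ, Stab {M : Matrix (RU1 g n s d) (RU1 g n s d) ℂ | ∃ x ∈ G,
      (x : Matrix _ _ ℂ) = M} δ (fromBlocks (mt (L b)) 0 0 0) := by
    intro b δ
    obtain ⟨y, hy, h, h1, h2, h3⟩ := hL b
    exact stab1 hH hy h1 h.rl δ
  have hsum : (fromBlocks N 0 0 0 : Matrix (RU1 g n s d) (RU1 g n s d) ℂ) =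
      ∑ b ∈ S, c b • fromBlocks (mt (L b)) 0 0 0 := by
    ext i j
    rw [Matrix.sum_apply]
    simp only [Matrix.smul_apply]
    rcases i with i | i <;> rcases j with j | j
    · simp only [fromBlocks_apply₁₁]
      rw [hNL, Matrix.sum_apply]
      rfl
    · simp
    · simp
    · simp
  obtain ⟨y, hy, hyx⟩ := Pool.Agent.R917.exp_mem hH.grp (X := fromBlocks N 0 0 0) fun δ => by
    rw [hsum]
    exact stab_sumW S _ fun b _ => (hst b δ).smul _
  refine ⟨y, hy, hyx.trans ?_⟩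
  rw [exp_fb, NormedSpace.exp_zero, exp_three hN]

/-- **Unipotent elements of the group.** -/
theorem unip_in0 {G : Subgroup (GL (RU1 g n s d) ℂ)}
    (hG : ∃ S : Set (MvPolynomial (RU1 g n s d × RU1 g n s d) ℚ), ∀ x : GL (RU1 g n s d) ℂ,
      x ∈ G ↔ ∀ p ∈ S, MvPolynomial.aeval
        (fun b : RU1 g n s d × RU1 g n s d => (x : Matrix _ _ ℂ) b.1 b.2) p = 0)
    {T : Matrix (CU1 g n s d) (RU1 g n s d) ℂ} (hT : ∀ i j, IsAlgebraic ℚ (T i j))
    {p : GL (RU1 g n s d) ℂ} (hp : p ∈ G) (hpT : (p : Matrix _ _ ℂ) = per1 A.toAbVar D V * T)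
    {N : Matrix (RI g n s) (RI g n s) ℂ} (hN : N * N * N = 0)
    (hL : ∀ lam : ℂ →ₗ[ℚ] ℚ, ∃ L ∈ kD A ⟨d, V⟩ D, mtQ L = N.map lam) :
    ∃ y ∈ G, (y : Matrix (RU1 g n s d) (RU1 g n s d) ℂ) =
      fromBlocks (1 + N + (2 : ℂ)⁻¹ • (N * N)) 0 0 1 := by
  classical
  obtain ⟨S, hS⟩ := exists_coordsC (fun q : RI g n s × RI g n s => N q.1 q.2)
  choose L hLk hL3 using fun b => hL ((Basis.ofVectorSpace ℚ ℂ).coord b)
  refine unip_in1 hG hT hp hpT hN S (fun b => Basis.ofVectorSpace ℚ ℂ b) L hLk ?_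
  ext i j
  rw [Matrix.sum_apply]
  have h2 := hS (i, j)
  simp only at h2
  rw [h2]
  refine Finset.sum_congr rfl fun b _ => ?_
  have h3 : mt (L b) i j = ((mtQ (L b) i j : ℚ) : ℂ) := rfl
  rw [Matrix.smul_apply, h3, hL3, Matrix.map_apply, smul_eq_mul, mul_comm]

/-- **Unipotent elements with given part of weight `-1`.** -/
theorem unip_in_rel {u : Fin n ⊕ Fin s → Fin g → ℂ} (hu : ∀ p, IsPoint A.toAbVar (u p))
    (hD : ∀ p, D.P p = hh A (u p)) {z : Fin n ⊕ Fin s → Fin (2 * g) → ℂ}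
    (hrel : ∀ e : Fin n ⊕ Fin s → EE A, ∑ p, (e p).1.2 (u p) ∈ Gam A ⟨d, V⟩ → ∀ j',
      ∑ p, ∑ j, z p j * (((e p).1.1 (Pi.single j 1) j' : ℚ) : ℂ) = 0) :
    ∃ x : Matrix (RI g n s) (RI g n s) ℂ, x - 1 ∈ Fl (lev g n s) 1 ∧
      (∀ i j, x (Sum.inr (Sum.inr i)) (Sum.inl j) = z (Sum.inl i) j) ∧
      (∀ l j, x (Sum.inl j) (Sum.inr (Sum.inl l)) = ∑ j', z (Sum.inr l) j' *
        ((A.toAbVar.om (eb A.toAbVar j') (eb A.toAbVar j) : ℚ) : ℂ)) ∧
      ∀ {G : Subgroup (GL (RU1 g n s d) ℂ)}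
        (hG : ∃ S : Set (MvPolynomial (RU1 g n s d × RU1 g n s d) ℚ), ∀ x : GL (RU1 g n s d) ℂ,
          x ∈ G ↔ ∀ p ∈ S, MvPolynomial.aeval
            (fun b : RU1 g n s d × RU1 g n s d => (x : Matrix _ _ ℂ) b.1 b.2) p = 0)
        {T : Matrix (CU1 g n s d) (RU1 g n s d) ℂ} (hT : ∀ i j, IsAlgebraic ℚ (T i j))
        {p : GL (RU1 g n s d) ℂ} (hp : p ∈ G)
        (hpT : (p : Matrix _ _ ℂ) = per1 A.toAbVar D V * T),
        ∃ y ∈ G, (y : Matrix (RU1 g n s d) (RU1 g n s d) ℂ) = fromBlocks x 0 0 1 := by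
  classical
  obtain ⟨S, hS⟩ := exists_coordsC (fun q : (Fin n ⊕ Fin s) × Fin (2 * g) => z q.1 q.2)
  have hz : ∀ b, (fun p j => (Basis.ofVectorSpace ℚ ℂ).coord b (z p j)) ∈ uu (kD A ⟨d, V⟩ D) := by
    intro b
    refine mem_uu_of (V := ⟨d, V⟩) hu hD fun e he => ?_
    funext j'
    have h1 := congrArg ((Basis.ofVectorSpace ℚ ℂ).coord b) (hrel e he j')
    rw [map_zero, map_sum] at h1
    rw [Finset.sum_apply]
    refine Eq.trans (Finset.sum_congr rfl fun p _ => ?_) h1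
    rw [map_sum]
    have h2 : (fun j => (Basis.ofVectorSpace ℚ ℂ).coord b (z p j) : A.toAbVar.H1) =
        ∑ j, ((Basis.ofVectorSpace ℚ ℂ).coord b (z p j)) • (Pi.single j 1 : A.toAbVar.H1) := by
      funext k
      rw [Finset.sum_apply]
      simp [Pi.single_apply]
    rw [h2, map_sum, Finset.sum_apply]
    refine Finset.sum_congr rfl fun j _ => ?_
    have h3 : ∀ (c : ℂ) (q : ℚ), (Basis.ofVectorSpace ℚ ℂ).coord b (c * (q : ℂ)) =
        (Basis.ofVectorSpace ℚ ℂ).coord b c * q := by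
      intro c q
      rw [mul_comm, ← Rat.smul_def, map_smul, smul_eq_mul, mul_comm]
    rw [map_smul, Pi.smul_apply, smul_eq_mul, h3]
  choose t ht using hz
  let L : Basis.ofVectorSpaceIndex ℚ ℂ → Tup A.toAbVar n s := fun b =>
    (0, 0, fun p j => (Basis.ofVectorSpace ℚ ℂ).coord b (z p j), t b)
  obtain ⟨N, hN⟩ : ∃ N, N = ∑ b ∈ S, ((Basis.ofVectorSpace ℚ ℂ b : ℂ)) • mt (L b) := ⟨_, rfl⟩
  have hN1 : N ∈ Fl (lev g n s) 1 := by
    rw [hN]
    refine Submodule.sum_mem _ fun b _ => Submodule.smul_mem _ _ ?_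
    have h1 := Pool.Agent.N208.UR.mt_Fl (L b) rfl
    have h2 : ((L b).2.1 : ℂ) = 0 := Rat.cast_zero
    rwa [h2, zero_smul, sub_zero] at h1
  have hN2 : N * N ∈ Fl (lev g n s) 2 := Pool.Agent.N208.UR.Fl_mul hN1 hN1
  have hN3 : N * N * N = 0 := Pool.Agent.N208.UR.Fl_three lev_le (by norm_num)
    (Pool.Agent.N208.UR.Fl_mul hN2 hN1)
  refine ⟨1 + N + (2 : ℂ)⁻¹ • (N * N), ?_, fun i j => ?_, fun l j => ?_,
    fun {G} hG {T} hT {p} hp hpT =>
      unip_in1 hG hT hp hpT hN3 S (fun b => Basis.ofVectorSpace ℚ ℂ b) L ht hN⟩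
  · have h1 : 1 + N + (2 : ℂ)⁻¹ • (N * N) - 1 = N + (2 : ℂ)⁻¹ • (N * N) := by abel
    rw [h1]
    exact Submodule.add_mem _ hN1 (Submodule.smul_mem _ _
      (Pool.Agent.N208.UR.Fl_mono (by norm_num) hN2))
  · rw [Matrix.add_apply, Matrix.add_apply, Matrix.one_apply_ne (by simp), Matrix.smul_apply,
      hN2 (Sum.inr (Sum.inr i)) (Sum.inl j) (by simp [lev]), smul_zero, add_zero, zero_add, hN,
      Matrix.sum_apply]
    have h2 := hS (Sum.inl i, j)
    simp only at h2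
    rw [h2]
    refine Finset.sum_congr rfl fun b _ => ?_
    rw [Matrix.smul_apply, smul_eq_mul, mul_comm]
    rfl
  · rw [Matrix.add_apply, Matrix.add_apply, Matrix.one_apply_ne (by simp), Matrix.smul_apply,
      hN2 (Sum.inl j) (Sum.inr (Sum.inl l)) (by simp [lev]), smul_zero, add_zero, zero_add, hN,
      Matrix.sum_apply]
    have h4 : ∀ b, mt (L b) (Sum.inl j) (Sum.inr (Sum.inl l)) = ∑ j',
        (((Basis.ofVectorSpace ℚ ℂ).coord b (z (Sum.inr l) j') : ℚ) : ℂ) *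
          ((A.toAbVar.om (eb A.toAbVar j') (eb A.toAbVar j) : ℚ) : ℂ) := by
      intro b
      have h5 : mt (L b) (Sum.inl j) (Sum.inr (Sum.inl l)) = ((A.toAbVar.om
          (fun j => (Basis.ofVectorSpace ℚ ℂ).coord b (z (Sum.inr l) j)) (eb A.toAbVar j) : ℚ) : ℂ) :=
        rfl
      have h6 : (fun j => (Basis.ofVectorSpace ℚ ℂ).coord b (z (Sum.inr l) j) : A.toAbVar.H1) =
          ∑ j', ((Basis.ofVectorSpace ℚ ℂ).coord b (z (Sum.inr l) j')) • eb A.toAbVar j' := by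
        funext k
        rw [Finset.sum_apply]
        simp [eb, Pi.single_apply]
      rw [h5, h6, map_sum, LinearMap.sum_apply, Rat.cast_sum]
      refine Finset.sum_congr rfl fun j' _ => ?_
      rw [map_smul, LinearMap.smul_apply, smul_eq_mul, Rat.cast_mul]
    simp only [Matrix.smul_apply, h4, smul_eq_mul, Finset.mul_sum]
    rw [Finset.sum_comm]
    refine Finset.sum_congr rfl fun j' _ => ?_
    have h2 := hS (Sum.inr l, j')
    simp only at h2
    refine Eq.trans ?_ (congrArg (fun w => w * ((A.toAbVar.om (eb A.toAbVar j')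
      (eb A.toAbVar j) : ℚ) : ℂ)) h2.symm)
    rw [Finset.sum_mul]
    refine Finset.sum_congr rfl fun b _ => ?_
    ring

/-- **All unipotent elements are contained in the group.** -/
theorem unip_in (hg : 0 < g) (hU : ∀ z, z ∈ uu (kD A ⟨d, V⟩ D))
    {G : Subgroup (GL (RU1 g n s d) ℂ)}
    (hG : ∃ S : Set (MvPolynomial (RU1 g n s d × RU1 g n s d) ℚ), ∀ x : GL (RU1 g n s d) ℂ,
      x ∈ G ↔ ∀ p ∈ S, MvPolynomial.aeval
        (fun b : RU1 g n s d × RU1 g n s d => (x : Matrix _ _ ℂ) b.1 b.2) p = 0)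
    {T : Matrix (CU1 g n s d) (RU1 g n s d) ℂ} (hT : ∀ i j, IsAlgebraic ℚ (T i j))
    {p : GL (RU1 g n s d) ℂ} (hp : p ∈ G) (hpT : (p : Matrix _ _ ℂ) = per1 A.toAbVar D V * T)
    {x : GL (RI g n s) ℂ} (hx : (x : Matrix (RI g n s) (RI g n s) ℂ) - 1 ∈ Fl (lev g n s) 1) :
    ∃ y ∈ G, (y : Matrix (RU1 g n s d) (RU1 g n s d) ℂ) = fromBlocks x 0 0 1 := by
  obtain ⟨N, hN, e1, e2, -⟩ := unip_eq (lev_le (g := g) (n := n) (s := s))
    (W := DD (lev g n s)) (by rw [sub_self]; exact Submodule.zero_mem _) hx x.mul_inv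
  have hcomp : ∀ lam : ℂ →ₗ[ℚ] ℚ, cqm (N.map lam) ∈ Fl (lev g n s) 1 := by
    intro lam r r' hr
    rw [cqm_apply, Matrix.map_apply, hN r r' hr, map_zero, Rat.cast_zero]
  obtain ⟨y, hy, hyx⟩ := unip_in0 hG hT hp hpT e2 fun lam => by
    obtain ⟨L, hL1, hL2, hL3⟩ := exists_tup (A := A.toAbVar) (hcomp lam)
    exact ⟨L, all_full hg hU hL1 hL2, hL3⟩
  exact ⟨y, hy, by rw [hyx, ← e1]⟩

/-- **Unipotent elements for 1-motives without torus.** -/
theorem unip_in_zero {D : Dt g n 0} {u : Fin n ⊕ Fin 0 → Fin g → ℂ}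
    (hu : ∀ p, IsPoint A.toAbVar (u p)) (hD : ∀ p, D.P p = hh A (u p))
    {G : Subgroup (GL (RU1 g n 0 d) ℂ)}
    (hG : ∃ S : Set (MvPolynomial (RU1 g n 0 d × RU1 g n 0 d) ℚ), ∀ x : GL (RU1 g n 0 d) ℂ,
      x ∈ G ↔ ∀ p ∈ S, MvPolynomial.aeval
        (fun b : RU1 g n 0 d × RU1 g n 0 d => (x : Matrix _ _ ℂ) b.1 b.2) p = 0)
    {T : Matrix (CU1 g n 0 d) (RU1 g n 0 d) ℂ} (hT : ∀ i j, IsAlgebraic ℚ (T i j))
    {p : GL (RU1 g n 0 d) ℂ} (hp : p ∈ G) (hpT : (p : Matrix _ _ ℂ) = per1 A.toAbVar D V * T)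
    {x : GL (RI g n 0) ℂ} (hx : (x : Matrix (RI g n 0) (RI g n 0) ℂ) - 1 ∈ Fl (lev g n 0) 1)
    (hrel : ∀ e : Fin n ⊕ Fin 0 → EE A, ∑ p, (e p).1.2 (u p) ∈ Gam A ⟨d, V⟩ → ∀ j',
      ∑ i, ∑ j, (x : Matrix (RI g n 0) (RI g n 0) ℂ) (Sum.inr (Sum.inr i)) (Sum.inl j) *
        (((e (Sum.inl i)).1.1 (Pi.single j 1) j' : ℚ) : ℂ) = 0) :
    ∃ y ∈ G, (y : Matrix (RU1 g n 0 d) (RU1 g n 0 d) ℂ) = fromBlocks x 0 0 1 := by
  obtain ⟨N, hN, e1, e2, -⟩ := unip_eq (lev_le (g := g) (n := n) (s := 0))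
    (W := DD (lev g n 0)) (by rw [sub_self]; exact Submodule.zero_mem _) hx x.mul_inv
  have hNN : N * N = 0 := by
    ext r r'
    rw [Matrix.mul_apply, Matrix.zero_apply]
    refine Finset.sum_eq_zero fun q _ => ?_
    rcases q with j | l | i
    · rcases r' with j' | l' | i'
      · rw [hN (Sum.inl j) (Sum.inl j') (by simp [lev]), mul_zero]
      · exact l'.elim0
      · rw [hN (Sum.inl j) (Sum.inr (Sum.inr i')) (by simp [lev]), mul_zero]
    · exact l.elim0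
    · rw [hN r (Sum.inr (Sum.inr i)) (by simp [lev]), zero_mul]
  have hxN : ∀ i j, (x : Matrix (RI g n 0) (RI g n 0) ℂ) (Sum.inr (Sum.inr i)) (Sum.inl j) =
      N (Sum.inr (Sum.inr i)) (Sum.inl j) := by
    intro i j
    rw [e1, hNN, smul_zero, add_zero, Matrix.add_apply, Matrix.one_apply_ne (by simp), zero_add]
  have hcomp : ∀ lam : ℂ →ₗ[ℚ] ℚ, cqm (N.map lam) ∈ Fl (lev g n 0) 1 := by
    intro lam r r' hr
    rw [cqm_apply, Matrix.map_apply, hN r r' hr, map_zero, Rat.cast_zero]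
  obtain ⟨y, hy, hyx⟩ := unip_in0 hG hT hp hpT e2 fun lam => by
    obtain ⟨L, hL1, hL2, hL3⟩ := exists_tup (A := A.toAbVar) (hcomp lam)
    refine ⟨L, ?_, hL3⟩
    have hz : ∀ i j, L.2.2.1 (Sum.inl i) j =
        lam ((x : Matrix (RI g n 0) (RI g n 0) ℂ) (Sum.inr (Sum.inr i)) (Sum.inl j)) := by
      intro i j
      rw [hxN]
      exact congrFun (congrFun hL3 (Sum.inr (Sum.inr i))) (Sum.inl j)
    obtain ⟨t, ht⟩ := mem_uu_of (V := ⟨d, V⟩) hu hD (z := L.2.2.1) (fun e he => by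
      rw [Fintype.sum_sum_type, Finset.univ_eq_empty (α := Fin 0), Finset.sum_empty, add_zero]
      funext j'
      have h1 := congrArg lam (hrel e he j')
      rw [map_zero, map_sum] at h1
      rw [Finset.sum_apply]
      refine Eq.trans (Finset.sum_congr rfl fun i _ => ?_) h1
      rw [map_sum]
      have h2 : L.2.2.1 (Sum.inl i) = ∑ j, L.2.2.1 (Sum.inl i) j •
          (Pi.single j 1 : A.toAbVar.H1) := by
        funext k
        rw [Finset.sum_apply]
        simp [Pi.single_apply]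
      rw [h2, map_sum, Finset.sum_apply]
      refine Finset.sum_congr rfl fun j _ => ?_
      have h3 : ∀ (c : ℂ) (q : ℚ), lam (c * (q : ℂ)) = lam c * q := by
        intro c q
        rw [mul_comm, ← Rat.smul_def, map_smul, smul_eq_mul, mul_comm]
      rw [map_smul, Pi.smul_apply, hz, smul_eq_mul, h3])
    convert ht using 1
    refine Prod.ext hL1 (Prod.ext hL2 (Prod.ext rfl ?_))
    funext i l
    exact l.elim0
  refine ⟨y, hy, ?_⟩
  rw [hyx, e1]

end Main

end Pool.Agent.N192.GC
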