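import Pool.Agent.N192.GC.Grp

set_option autoImplicit false
set_option linter.unusedSectionVars false
set_option linter.unusedVariables false

/-!
# The number of independent exceptional points
-/

open Module Function TensorProduct Matrix

noncomputable section

namespace Pool.Agent.N192.GC

open Pool.Agent.Y102 Pool.Agent.W516.DR Pool.Agent.H204R3.GP Pool.Agent.W516.KC
  Pool.Agent.H204R3.SP Pool.Agent.TH119.MX Pool.Agent.R917.OM Pool.Agent.R917.BX
  Pool.Agent.N192.MO
open Pool.Agent.N192.GP (NN tt DRS UU RU LU gU LU_le LU_br gU_mem DA ηA NN_reindex brU_snd brU_fst)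

section emul

variable {g : ℕ} (A : AbVarG g)

/-- The product of endomorphisms. -/
def emul (e : EE A) : EE A →ₗ[ℚ] EE A where
  toFun e' := ⟨(e.1.1 * e'.1.1, e.1.2 ∘ₗ e'.1.2), fun w => by
    change A.toAbVar.per (e.1.1 (e'.1.1 w)) = e.1.2 (e'.1.2 (A.toAbVar.per w))
    rw [e.2.1, e'.2.1], fun X hX => by
    rw [← mul_assoc, e.2.2 X hX, mul_assoc, e'.2.2 X hX, mul_assoc]⟩
  map_add' e' e'' := by
    refine Subtype.ext (Prod.ext ?_ ?_)
    · exact mul_add _ _ _
    · exact LinearMap.comp_add _ _ _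
  map_smul' c e' := by
    refine Subtype.ext (Prod.ext ?_ ?_)
    · exact mul_smul_comm _ _ _
    · refine LinearMap.ext fun w => ?_
      change e.1.2 (c • e'.1.2 w) = c • e.1.2 (e'.1.2 w)
      exact LinearMap.map_smul_of_tower _ _ _

/-- The product with an endomorphism. -/
def em (e : EE A) : (pts A →₀ EE A) →ₗ[ℚ] (pts A →₀ EE A) :=
  Finsupp.mapRange.linearMap (emul A e)

theorem em_single (e : EE A) (u : pts A) (e' : EE A) :
    em A e (Finsupp.single u e') = Finsupp.single u (emul A e e') := by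
  unfold em
  rw [Finsupp.mapRange.linearMap_apply, Finsupp.mapRange_single]

theorem sg_single (u : pts A) (e : EE A) : sg A (Finsupp.single u e) = e.1.2 u.1 := by
  unfold sg
  rw [Finsupp.lsum_single]
  rfl

theorem ga_single (u : pts A) (e : EE A) (x : LU) : ga A (Finsupp.single u e) x =
    e.1.1 (cc A.toAbVar (hh A u.1) x.1) := by
  unfold ga
  rw [Finsupp.lsum_single]
  rfl

theorem sg_em (e : EE A) (φ : pts A →₀ EE A) : sg A (em A e φ) = e.1.2 (sg A φ) := by
  induction φ using Finsupp.induction_linear with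
  | zero => rw [map_zero, map_zero, map_zero]
  | add φ φ' h h' => rw [map_add, map_add, map_add, map_add, h, h']
  | single u e' =>
    rw [em_single, sg_single, sg_single]
    rfl

theorem ga_em (e : EE A) (φ : pts A →₀ EE A) (x : LU) :
    ga A (em A e φ) x = e.1.1 (ga A φ x) := by
  induction φ using Finsupp.induction_linear with
  | zero => rw [map_zero, map_zero, LinearMap.zero_apply, map_zero]
  | add φ φ' h h' =>
    rw [map_add, map_add, map_add, LinearMap.add_apply, LinearMap.add_apply, map_add, h, h']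
  | single u e' =>
    rw [em_single, ga_single, ga_single]
    rfl

/-- The action on the abelian variety. -/
def aA (x : RU) : Module.End ℚ A.toAbVar.H1 := x.1 (UAA A.toAbVar)

theorem aA_of {n s : ℕ} {D : Dt g n s} {x : RU} {L : Tup A.toAbVar n s}
    (h : RlA A.toAbVar D x L) : aA A x = op L := h.ab

theorem aA_add (x y : RU) : aA A (x + y) = aA A x + aA A y := rfl

theorem aA_smul (c : ℚ) (x : RU) : aA A (c • x) = c • aA A x := rfl

theorem aA_br (x y : RU) : aA A (x * y - y * x) = aA A x * aA A y - aA A y * aA A x := rfl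

theorem cc_br {P : Fin g ⊕ Fin g → ℂ} {x y : RU} (hx : x ∈ LU) (hy : y ∈ LU) :
    cc A.toAbVar P (x * y - y * x) =
      aA A x (cc A.toAbVar P y) - aA A y (cc A.toAbVar P x) := by
  obtain ⟨L, hL⟩ := exists_Rl (fun _ : Unit => A.toAbVar) () (D1 P) hx
  obtain ⟨L', hL'⟩ := exists_Rl (fun _ : Unit => A.toAbVar) () (D1 P) hy
  rw [cc_of A.toAbVar hL, cc_of A.toAbVar hL', cc_of A.toAbVar (hL.br hL'), aA_of A hL,
    aA_of A hL']
  rfl

theorem comm_EE (e : EE A) {x : RU} (hx : x ∈ LU) : e.1.1 * aA A x = aA A x * e.1.1 := by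
  let 𝔩 : Submodule ℚ RU :=
    { carrier := {x | e.1.1 * aA A x = aA A x * e.1.1}
      zero_mem' := (mul_zero _).trans (zero_mul _).symm
      add_mem' := fun {x y} hx hy => by
        have e1 : e.1.1 * aA A x = aA A x * e.1.1 := hx
        have e2 : e.1.1 * aA A y = aA A y * e.1.1 := hy
        change e.1.1 * aA A (x + y) = aA A (x + y) * e.1.1
        rw [aA_add, mul_add, add_mul, e1, e2]
      smul_mem' := fun c x hx => by
        have e1 : e.1.1 * aA A x = aA A x * e.1.1 := hx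
        change e.1.1 * aA A (c • x) = aA A (c • x) * e.1.1
        rw [aA_smul, mul_smul_comm, smul_mul_assoc, e1] }
  have h1 : LU ≤ 𝔩 := by
    refine LU_le (fun x hx y hy => ?_) fun D lam => ?_
    · have e1 : e.1.1 * aA A x = aA A x * e.1.1 := hx
      have e2 : e.1.1 * aA A y = aA A y * e.1.1 := hy
      change e.1.1 * aA A (x * y - y * x) = aA A (x * y - y * x) * e.1.1
      rw [aA_br, mul_sub, sub_mul, ← mul_assoc, e1, mul_assoc, e2, ← mul_assoc e.1.1, e2,
        mul_assoc (aA A y) e.1.1, e1, ← mul_assoc, ← mul_assoc]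
    · have h2 := aA_of A (Rl.gen (A := fun _ : Unit => A.toAbVar) (i := ())
        (d := D1 (g := g) (fun _ => 0)) D lam)
      have h3 : (LD A.toAbVar (D1 (g := g) (fun _ => 0)) D lam).1 ∈ A.toAbVar.LA := by
        rw [AbVar.LA_eq]
        exact X0_mem A.toAbVar.basis AbVar.tau_ne D lam
      have h4 := e.2.2 _ h3
      change e.1.1 * aA A (gU D lam) = aA A (gU D lam) * e.1.1
      rw [h2]
      unfold op
      rw [mul_add, add_mul, h4, mul_smul_comm, smul_mul_assoc, mul_one, one_mul]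
  exact h1 hx

theorem ga_br (φ : pts A →₀ EE A) (x y : LU) :
    ga A φ ⟨x.1 * y.1 - y.1 * x.1, LU_br x.1 x.2 y.1 y.2⟩ =
      aA A x.1 (ga A φ y) - aA A y.1 (ga A φ x) := by
  induction φ using Finsupp.induction_linear with
  | zero => rw [map_zero, LinearMap.zero_apply, LinearMap.zero_apply, LinearMap.zero_apply,
      map_zero, map_zero, sub_zero]
  | add φ φ' h h' =>
    rw [map_add, LinearMap.add_apply, LinearMap.add_apply, LinearMap.add_apply, map_add, map_add,
      h, h']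
    abel
  | single u e' =>
    rw [ga_single, ga_single, ga_single, cc_br A x.2 y.2, map_sub]
    exact congrArg₂ _ (LinearMap.congr_fun (comm_EE A e' x.2) _)
      (LinearMap.congr_fun (comm_EE A e' y.2) _)

end emul

section count

variable {g : ℕ} (A : AbVarG g) (V : UU)

/-- The elements which act trivially on the abelian variety. -/
def aU : Submodule ℚ RU where
  carrier := {x | x ∈ LU ∧ aA A x = 0 ∧ x.2 = 0}
  zero_mem' := ⟨LU.zero_mem, rfl, rfl⟩
  add_mem' := by
    rintro x y ⟨h0, h1, h2⟩ ⟨h0', h1', h2'⟩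
    refine ⟨LU.add_mem h0 h0', ?_, ?_⟩
    · rw [aA_add, h1, h1', add_zero]
    · rw [Prod.snd_add, h2, h2', add_zero]
  smul_mem' := by
    rintro c x ⟨h0, h1, h2⟩
    refine ⟨LU.smul_mem c h0, ?_, ?_⟩
    · rw [aA_smul, h1, smul_zero]
    · rw [Prod.smul_snd, h2, smul_zero]

/-- The inclusion. -/
def iU : aU A →ₗ[ℚ] LU := Submodule.inclusion fun _ hx => hx.1

/-- The rational vectors which satisfy the relations between the points. -/
def hullQ {m : ℕ} (v : Fin m → Fin g → ℂ) : Submodule ℚ (Fin m → A.toAbVar.H1) where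
  carrier := {z | ∀ e : Fin m → EE A, ∑ i, (e i).1.2 (v i) ∈ LinearMap.range A.toAbVar.per →
    ∑ i, (e i).1.1 (z i) = 0}
  zero_mem' := fun e _ => Finset.sum_eq_zero fun i _ => map_zero _
  add_mem' := by
    intro z z' hz hz' e he
    have h1 := hz e he
    have h2 := hz' e he
    simp only [Pi.add_apply, map_add, Finset.sum_add_distrib]
    rw [h1, h2, add_zero]
  smul_mem' := by
    intro c z hz e he
    have h1 := hz e he
    simp only [Pi.smul_apply, map_smul, ← Finset.smul_sum]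
    rw [h1, smul_zero]

/-- **The dimension of the abelian subvariety generated by exceptional points.** -/
theorem count {m : ℕ} {v : Fin m → Fin g → ℂ} (hv : ∀ i, v i ∈ Gam A V) :
    finrank ℚ (hullQ A v) ≤ V.1 * V.1 := by
  classical
  choose φ hφ hφv using hv
  let c : LU →ₗ[ℚ] (Fin m → A.toAbVar.H1) := LinearMap.pi fun i => ga A (φ i)
  let D0 : Dt g 0 0 := ⟨Sum.elim Fin.elim0 Fin.elim0, fun _ _ => 0⟩
  have hLg := gD_Lg (A := A.toAbVar) (D := D0)
  obtain ⟨π, hπ2, hπ0, hπc⟩ := exists_proj_aux hLg.full.semi (LinearMap.range (c ∘ₗ iU A)) (by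
    rintro _ ⟨L, ⟨y, hy, hL⟩, rfl⟩ _ ⟨⟨x, hx0, hx1, hx2⟩, rfl⟩
    have hyx : y * x - x * y ∈ aU A := by
      refine ⟨LU_br y hy x hx0, ?_, brU_snd _ _⟩
      rw [aA_br, hx1, mul_zero, zero_mul, sub_zero]
    have h2 := (LinearMap.range (c ∘ₗ iU A)).sub_mem ⟨⟨_, hyx⟩, rfl⟩
      ((LinearMap.range (c ∘ₗ iU A)).smul_mem L.2.1 ⟨⟨x, hx0, hx1, hx2⟩, rfl⟩)
    convert h2 using 1
    funext i
    change L.1 (ga A (φ i) ⟨x, hx0⟩) = ga A (φ i) ⟨y * x - x * y, LU_br y hy x hx0⟩ -
      L.2.1 • ga A (φ i) ⟨x, hx0⟩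
    rw [ga_br A (φ i) ⟨y, hy⟩ ⟨x, hx0⟩]
    change L.1 (ga A (φ i) ⟨x, hx0⟩) = aA A y (ga A (φ i) ⟨x, hx0⟩) -
      aA A x (ga A (φ i) ⟨y, hy⟩) - L.2.1 • ga A (φ i) ⟨x, hx0⟩
    rw [hx1, aA_of A hL.rl, LinearMap.zero_apply, sub_zero, op_apply, add_sub_cancel_right])
  let f : Fin m → Fin m → Module.End ℚ A.toAbVar.H1 := fun p q =>
    (LinearMap.proj p ∘ₗ π) ∘ₗ LinearMap.single ℚ (fun _ => A.toAbVar.H1) q
  have hfπ : ∀ z p, π z p = ∑ q, f p q (z q) := by
    intro z p
    have h1 : z = ∑ q, (LinearMap.single ℚ (fun _ => A.toAbVar.H1) q (z q)) := by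
      funext q
      rw [Finset.sum_apply, Finset.sum_eq_single q]
      · simp
      · intro b _ hb
        simp [hb.symm]
      · intro hq
        exact absurd (Finset.mem_univ _) hq
    conv_lhs => rw [h1, map_sum, Finset.sum_apply]
    rfl
  have hfc : ∀ p q, ∀ Y ∈ aa (gD A.toAbVar D0), Y * f p q = f p q * Y := by
    intro p q Y hY
    refine LinearMap.ext fun x => ?_
    have h1 := congrFun (hπc Y hY (Pi.single q x)) p
    have h2 : (fun p => Y ((Pi.single q x : Fin m → A.toAbVar.H1) p)) =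
        (Pi.single q (Y x) : Fin m → A.toAbVar.H1) := by
      funext p'
      by_cases hp : p' = q
      · subst hp
        rw [Pi.single_eq_same, Pi.single_eq_same]
      · rw [Pi.single_eq_of_ne hp, Pi.single_eq_of_ne hp, map_zero]
    rw [h2] at h1
    exact h1.symm
  have hEA : ∀ p q, f p q ∈ A.toAbVar.EA := fun p q => A.toAbVar.mem_EA.2
    (A.toAbVar.end_of_central (𝔥 := aa (gD A.toAbVar D0))
      (fun D' lam => ⟨_, hLg.per D' lam, rfl⟩) (hfc p q))
  choose F hF using fun p q => A.toAbVar.hodge_end (A.toAbVar.mem_EA.1 (hEA p q))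
  let e : Fin m → Fin m → EE A := fun p q =>
    ⟨(f p q, F p q), fun w => (hF p q w).symm, hEA p q⟩
  have hrel : ∀ p, ∑ q, (e p q).1.2 (v q) ∈ LinearMap.range A.toAbVar.per := by
    intro p
    have h1 : sg A (∑ q, em A (e p q) (φ q)) = ∑ q, (e p q).1.2 (v q) := by
      rw [map_sum]
      exact Finset.sum_congr rfl fun q _ => by rw [sg_em, hφv]
    rw [← h1]
    refine sg_of_ga' A fun x hx1 hx2 => ?_
    rw [map_sum, LinearMap.sum_apply]
    have h2 : π (c x) = 0 := (hπ0 _).2 ⟨⟨x.1, x.2, hx1, hx2⟩, rfl⟩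
    have h3 := hfπ (c x) p
    rw [h2] at h3
    refine Eq.trans (Finset.sum_congr rfl fun q _ => ?_) h3.symm
    rw [ga_em]
    rfl
  have hsurj : hullQ A v ≤ LinearMap.range (c ∘ₗ iU A) := by
    intro z hz
    rw [← hπ0]
    funext p
    rw [hfπ]
    exact hz (e p) (hrel p)
  -- the factorization
  let f1 : aU A →ₗ[ℚ] Module.End ℚ (Fin V.1 → ℚ) :=
    { toFun := fun x => x.1.1 V
      map_add' := fun _ _ => rfl
      map_smul' := fun _ _ => rfl }
  obtain ⟨h', hh'⟩ := exists_fac (E1 := aU A) (E2 := Module.End ℚ (Fin V.1 → ℚ))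
    (E3 := Fin m → A.toAbVar.H1) f1 (c ∘ₗ iU A) (by
      rintro ⟨x, hx0, hx1, hx2⟩ hx
      funext i
      obtain ⟨k, hk⟩ := hφ i
      have h2 : ga A (φ i) ⟨x, hx0⟩ = k (rh A V ⟨x, hx0⟩) := (LinearMap.congr_fun hk _).symm
      have h3 : rh A V ⟨x, hx0⟩ = 0 := Prod.ext hx (Prod.ext hx1 hx2)
      change ga A (φ i) ⟨x, hx0⟩ = 0
      rw [h2, h3, map_zero])
  have hs : hullQ A v ≤ LinearMap.range h' := by
    intro z hz
    obtain ⟨x, rfl⟩ := hsurj hz
    exact ⟨f1 x, hh' x⟩
  refine (Submodule.finrank_mono hs).trans ((LinearMap.finrank_range_le _).trans (le_of_eq ?_))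
  rw [Module.finrank_linearMap, Module.finrank_fin_fun]

/-- The exceptional points form a module over the endomorphisms. -/
theorem Gam_stable (e : EE A) {v : Fin g → ℂ} (hv : v ∈ Gam A V) : e.1.2 v ∈ Gam A V := by
  obtain ⟨φ, ⟨k, hk⟩, rfl⟩ := hv
  refine ⟨em A e φ, ⟨e.1.1 ∘ₗ k, ?_⟩, sg_em A e φ⟩
  refine LinearMap.ext fun x => ?_
  rw [ga_em, ← hk]
  rfl

end count

end Pool.Agent.N192.GC
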