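import Pool.Agent.N192.GC.Joint

set_option autoImplicit false
set_option linter.unusedSectionVars false
set_option linter.unusedVariables false

/-!
# Groups which contain the periods of several 1-motives and of a structure
-/

open Module Function TensorProduct Matrix

noncomputable section

namespace Pool.Agent.N192.GC.J

open Pool.Agent.Y102 Pool.Agent.W516.DR Pool.Agent.H204R3.GP Pool.Agent.W516.KC
  Pool.Agent.H204R3.SP Pool.Agent.TH119.MX Pool.Agent.R917.OM Pool.Agent.R917.BX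
  Pool.Agent.N192.MO
open Pool.Agent.N192.GP (NN tt DRS UU RU LU gU LU_le LU_br gU_mem DA ηA NN_reindex brU_snd brU_fst
  Bt eB act act_apply eB_apply LG map_resU resU DRS.basis hom_of_comm IsHomAb)
open Pool.Agent.N192.GT (tC tC_apply PW PW_apply PtW bB alg_invR stab_sumW lieW exp_fb)
open Pool.Agent.N208.UR (Fl mem_Fl lev lev_le DD unip_eq exp_three exists_tup cqm cqm_apply)
open Pool.Agent.R917 (lamF lamF_apply QQ QA)

section Per

variable {K : Type} [Fintype K] [DecidableEq K] {g n s : K → ℕ} {d : ℕ}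

/-- The rows. -/
abbrev RU1 (g n s : K → ℕ) (d : ℕ) : Type := (Σ a, RI (g a) (n a) (s a)) ⊕ Fin d

/-- The columns. -/
abbrev CU1 (g n s : K → ℕ) (d : ℕ) : Type := (Σ a, CI (g a) (n a) (s a)) ⊕ Fin d

/-- The rows, in terms of families. -/
abbrev RF (g n s : K → ℕ) (d : ℕ) : Type := Row g n s (fun _ : Unit => d)

/-- The equivalence of the rows. -/
def e0 (g n s : K → ℕ) (d : ℕ) : RF g n s d ≃ RU1 g n s d where
  toFun := Sum.elim Sum.inl (fun x => Sum.inr x.2)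
  invFun := Sum.elim Sum.inl (fun x => Sum.inr ⟨(), x⟩)
  left_inv := by rintro (x | ⟨⟨⟩, x⟩) <;> rfl
  right_inv := by rintro (x | x) <;> rfl

/-- The equivalence with the indices of the family. -/
def eR1 (g n s : K → ℕ) (d : ℕ) : (Σ t, Fin (nM g n s (fun _ : Unit => d) t)) ≃ RU1 g n s d :=
  (eR g n s (fun _ : Unit => d)).trans (e0 g n s d)

/-- The basis of the Betti side. -/
abbrev bU1 (g n s : K → ℕ) (d : ℕ) : Basis (RU1 g n s d) ℚ (Bt (nM g n s (fun _ : Unit => d))) :=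
  (bB (nM g n s (fun _ : Unit => d))).reindex (eR1 g n s d)

variable (A : ∀ a, AbVar (g a)) (D : ∀ a, Dt (g a) (n a) (s a)) (V : DRS d)

/-- The de Rham side. -/
abbrev fU1 : Basis (RU1 g n s d) ℂ (Bt (nM g n s (fun _ : Unit => d)) →ₗ[ℚ] ℂ) :=
  (eB (ηM A D (fun _ : Unit => V))).reindex (eR1 g n s d)

/-- The matrix of the periods. -/
def per1 : Matrix (RU1 g n s d) (CU1 g n s d) ℂ :=
  fromBlocks (blockDiagonal' fun a => pmat (A a) (D a)) 0 0
    (Matrix.of fun p q => V.eta q (Pi.single p 1))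

/-- The equivalence of the columns and the rows. -/
def eC1 (g n s : K → ℕ) (d : ℕ) : CU1 g n s d ≃ RU1 g n s d :=
  Equiv.sumCongr (Equiv.sigmaCongrRight fun a => ce (g a) (n a) (s a)) (Equiv.refl _)

/-- The equivalence of the columns. -/
def cF (c : CU1 g n s d) : Col g n s (fun _ : Unit => d) :=
  Sum.elim Sum.inl (fun x => Sum.inr ⟨(), x⟩) c

theorem per_eq1 : per1 A D V = (PW (bU1 g n s d) (fU1 A D V)).submatrix id (eC1 g n s d) := by
  ext x c
  have h1 := congrFun (congrFun (per_eq A D (fun _ : Unit => V)) ((e0 g n s d).symm x)) (cF c)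
  have h2 : perM A D (fun _ : Unit => V) ((e0 g n s d).symm x) (cF c) = per1 A D V x c := by
    unfold per1 perM
    rcases x with r | p <;> rcases c with k | q
    · rfl
    · rfl
    · rfl
    · exact blockDiagonal'_apply_eq (fun _ : Unit => (Matrix.of fun p q => V.eta q (Pi.single p 1) :
        Matrix (Fin d) (Fin d) ℂ)) () p q
  rw [← h2, h1]
  have h3 : eC g n s (fun _ : Unit => d) (cF c) = (e0 g n s d).symm (eC1 g n s d c) := by
    rcases c with k | q <;> rfl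
  rw [Matrix.submatrix_apply, Matrix.submatrix_apply, h3, id, id, PW_apply, PW_apply, bR_apply,
    fR_apply, Basis.reindex_apply, Basis.reindex_apply]
  rfl

variable {A D V}

theorem pt_of1 {G : Subgroup (GL (RU1 g n s d) ℂ)}
    (hG : ∃ S : Set (MvPolynomial (RU1 g n s d × RU1 g n s d) ℚ), ∀ x : GL (RU1 g n s d) ℂ,
      x ∈ G ↔ ∀ p ∈ S, MvPolynomial.aeval
        (fun b : RU1 g n s d × RU1 g n s d => (x : Matrix _ _ ℂ) b.1 b.2) p = 0)
    {T : Matrix (CU1 g n s d) (RU1 g n s d) ℂ} (hT : ∀ i j, IsAlgebraic ℚ (T i j))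
    {x : GL (RU1 g n s d) ℂ} (hx : x ∈ G) (hxT : (x : Matrix _ _ ℂ) = per1 A D V * T) :
    PtW (bU1 g n s d) (fU1 A D V)
      {M : Matrix (RU1 g n s d) (RU1 g n s d) ℂ | ∃ x ∈ G, (x : Matrix _ _ ℂ) = M} := by
  refine ⟨R917.algGrp_of hG, ?_⟩
  have h1 : PW (bU1 g n s d) (fU1 A D V) * T.submatrix (eC1 g n s d).symm id =
      per1 A D V * T := by
    rw [per_eq1]
    have h2 : (PW (bU1 g n s d) (fU1 A D V)).submatrix id (eC1 g n s d) * T =
        ((PW (bU1 g n s d) (fU1 A D V)).submatrix id (eC1 g n s d)).submatrix id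
          (eC1 g n s d).symm * T.submatrix (eC1 g n s d).symm id := by
      rw [Matrix.submatrix_mul_equiv, Matrix.submatrix_id_id]
    rw [h2, Matrix.submatrix_submatrix, Equiv.self_comp_symm]
    rfl
  have h2 : (T.submatrix (eC1 g n s d).symm id).det ≠ 0 := by
    intro h0
    have h3 : (x : Matrix (RU1 g n s d) (RU1 g n s d) ℂ).det = 0 := by
      rw [hxT, ← h1, Matrix.det_mul, h0, mul_zero]
    exact (Matrix.GeneralLinearGroup.det x).ne_zero h3
  obtain ⟨T', h3, h4⟩ := alg_invR (T := T.submatrix (eC1 g n s d).symm id) (fun i j => hT _ _) h2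
  exact ⟨_, T', h3, h4, ⟨x, hx, by rw [hxT, h1]⟩⟩

theorem repU (z : Bt (nM g n s (fun _ : Unit => d))) (a : RU1 g n s d) :
    (bU1 g n s d).repr z a = (bR g n s (fun _ : Unit => d)).repr z ((e0 g n s d).symm a) := by
  rw [Basis.repr_reindex_apply, rep_bR]
  rfl

/-- Elements of the universal Lie algebra give elements of the Lie algebra of the group. -/
theorem stab1 {H : Set (Matrix (RU1 g n s d) (RU1 g n s d) ℂ)}
    (hH : PtW (bU1 g n s d) (fU1 A D V) H) {x : RU} (hx : x ∈ LU)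
    (hV : x.1 ⟨d, V⟩ = 0) {L : ∀ a, Tup (A a) (n a) (s a)}
    (hL : ∀ a, (x.1 (UM A a (D a)) : Module.End ℚ (Fin (RN (g a) (n a) (s a)) → ℚ)) = tm (L a))
    (δ : ℕ) : Stab H δ (fromBlocks (blockDiagonal' fun a => mt (L a)) 0 0 0) := by
  have h1 := PtW.LG_mem (ηM A D (fun _ : Unit => V)) (eR1 g n s d) (eR1 g n s d) hH
    (mem_LG A D (fun _ : Unit => V) hx) δ
  have h2 := tC_act (A := A) (X := (resU (σM A D (fun _ : Unit => V))
    (ρM A D (fun _ : Unit => V)) x).1) (L := L) hL (fun _ => hV)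
  have h3 : (tC (bU1 g n s d) (act (resU (σM A D (fun _ : Unit => V))
      (ρM A D (fun _ : Unit => V)) x).1))ᵀ = fromBlocks (blockDiagonal' fun a => mt (L a)) 0 0 0 := by
    ext i j
    have h4 := congrFun (congrFun h2 ((e0 g n s d).symm i)) ((e0 g n s d).symm j)
    rw [Matrix.transpose_apply, tC_apply, repU, Basis.reindex_apply]
    rw [Matrix.transpose_apply, tC_apply, bR_apply] at h4
    refine Eq.trans h4 ?_
    rcases i with r | p <;> rcases j with r' | p' <;> rfl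
  rw [← h3]
  exact h1

end Per

section Main

variable {K : Type} [Fintype K] [DecidableEq K] {g n s : K → ℕ} {d : ℕ} {A : ∀ k, AbVarG (g k)}
  {D : ∀ k, Dt (g k) (n k) (s k)} {V : DRS d}

/-- **Unipotent elements of the group.** -/
theorem unip_in1 {G : Subgroup (GL (RU1 g n s d) ℂ)}
    (hG : ∃ S : Set (MvPolynomial (RU1 g n s d × RU1 g n s d) ℚ), ∀ x : GL (RU1 g n s d) ℂ,
      x ∈ G ↔ ∀ p ∈ S, MvPolynomial.aeval
        (fun b : RU1 g n s d × RU1 g n s d => (x : Matrix _ _ ℂ) b.1 b.2) p = 0)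
    {T : Matrix (CU1 g n s d) (RU1 g n s d) ℂ} (hT : ∀ i j, IsAlgebraic ℚ (T i j))
    {p : GL (RU1 g n s d) ℂ} (hp : p ∈ G)
    (hpT : (p : Matrix _ _ ℂ) = per1 (fun k => (A k).toAbVar) D V * T)
    {N : ∀ k, Matrix (RI (g k) (n k) (s k)) (RI (g k) (n k) (s k)) ℂ}
    (hN : ∀ k, N k * N k * N k = 0) {ι : Type} (S : Finset ι)
    (c : ι → ℂ) (L : ι → ∀ k, Tup (A k).toAbVar (n k) (s k)) (hL : ∀ b, L b ∈ kJ A D ⟨d, V⟩)
    (hNL : ∀ k, N k = ∑ b ∈ S, c b • mt (L b k)) :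
    ∃ y ∈ G, (y : Matrix (RU1 g n s d) (RU1 g n s d) ℂ) =
      fromBlocks (blockDiagonal' fun k => 1 + N k + (2 : ℂ)⁻¹ • (N k * N k)) 0 0 1 := by
  classical
  have hH := pt_of1 hG hT hp hpT
  have hst : ∀ b δ, Stab {M : Matrix (RU1 g n s d) (RU1 g n s d) ℂ | ∃ x ∈ G,
      (x : Matrix _ _ ℂ) = M} δ (fromBlocks (blockDiagonal' fun k => mt (L b k)) 0 0 0) := by
    intro b δ
    obtain ⟨y, hy, h, h1, h2, h3⟩ := hL b
    exact stab1 hH hy h1 (fun k => (h k).rl.mot) δ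
  have hsum : (fromBlocks (blockDiagonal' N) 0 0 0 : Matrix (RU1 g n s d) (RU1 g n s d) ℂ) =
      ∑ b ∈ S, c b • fromBlocks (blockDiagonal' fun k => mt (L b k)) 0 0 0 := by
    ext i j
    rw [Matrix.sum_apply]
    simp only [Matrix.smul_apply]
    rcases i with ⟨k, i⟩ | i <;> rcases j with ⟨k', j⟩ | j
    · simp only [fromBlocks_apply₁₁]
      by_cases hk : k = k'
      · subst hk
        rw [blockDiagonal'_apply_eq, hNL, Matrix.sum_apply]
        refine Finset.sum_congr rfl fun b _ => ?_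
        rw [blockDiagonal'_apply_eq, Matrix.smul_apply]
      · rw [blockDiagonal'_apply_ne _ _ _ hk]
        refine (Finset.sum_eq_zero fun b _ => ?_).symm
        rw [blockDiagonal'_apply_ne _ _ _ hk, smul_zero]
    · simp
    · simp
    · simp
  have hN3 : (blockDiagonal' N : Matrix (Σ k, RI (g k) (n k) (s k)) (Σ k, RI (g k) (n k) (s k)) ℂ) *
      blockDiagonal' N * blockDiagonal' N = 0 := by
    rw [← blockDiagonal'_mul, ← blockDiagonal'_mul]
    have h1 : (fun k => N k * N k * N k) = 0 := funext hN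
    rw [h1, blockDiagonal'_zero]
  obtain ⟨y, hy, hyx⟩ := Pool.Agent.R917.exp_mem hH.grp (X := fromBlocks (blockDiagonal' N) 0 0 0)
    fun δ => by
      rw [hsum]
      exact stab_sumW S _ fun b _ => (hst b δ).smul _
  refine ⟨y, hy, hyx.trans ?_⟩
  rw [exp_fb, NormedSpace.exp_zero, exp_three hN3]
  congr 1
  rw [← blockDiagonal'_mul, ← blockDiagonal'_one, ← blockDiagonal'_smul, ← blockDiagonal'_add,
    ← blockDiagonal'_add]
  rfl

/-- **Unipotent elements with given parts of weight `-1`.** -/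
theorem unip_in_rel (hom : ∀ k l, k ≠ l → ∀ f : (A k).toAbVar.H1 →ₗ[ℚ] (A l).toAbVar.H1,
      IsHomAb (A k).toAbVar (A l).toAbVar f → f = 0)
    {u : ∀ k, Fin (n k) ⊕ Fin (s k) → Fin (g k) → ℂ} (hu : ∀ k p, IsPoint (A k).toAbVar (u k p))
    (hD : ∀ k p, (D k).P p = hh (A k) (u k p)) {z : ∀ k, Fin (n k) ⊕ Fin (s k) → Fin (2 * g k) → ℂ}
    (hrel : ∀ k, ∀ e : Fin (n k) ⊕ Fin (s k) → EE (A k),
      ∑ p, (e p).1.2 (u k p) ∈ Gam (A k) ⟨d, V⟩ → ∀ j',
      ∑ p, ∑ j, z k p j * (((e p).1.1 (Pi.single j 1) j' : ℚ) : ℂ) = 0) :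
    ∃ x : ∀ k, Matrix (RI (g k) (n k) (s k)) (RI (g k) (n k) (s k)) ℂ,
      (∀ k, x k - 1 ∈ Fl (lev (g k) (n k) (s k)) 1) ∧
      (∀ k i j, x k (Sum.inr (Sum.inr i)) (Sum.inl j) = z k (Sum.inl i) j) ∧
      (∀ k l j, x k (Sum.inl j) (Sum.inr (Sum.inl l)) = ∑ j', z k (Sum.inr l) j' *
        (((A k).toAbVar.om (eb (A k).toAbVar j') (eb (A k).toAbVar j) : ℚ) : ℂ)) ∧
      ∀ {G : Subgroup (GL (RU1 g n s d) ℂ)}
        (hG : ∃ S : Set (MvPolynomial (RU1 g n s d × RU1 g n s d) ℚ), ∀ x : GL (RU1 g n s d) ℂ,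
          x ∈ G ↔ ∀ p ∈ S, MvPolynomial.aeval
            (fun b : RU1 g n s d × RU1 g n s d => (x : Matrix _ _ ℂ) b.1 b.2) p = 0)
        {T : Matrix (CU1 g n s d) (RU1 g n s d) ℂ} (hT : ∀ i j, IsAlgebraic ℚ (T i j))
        {p : GL (RU1 g n s d) ℂ} (hp : p ∈ G)
        (hpT : (p : Matrix _ _ ℂ) = per1 (fun k => (A k).toAbVar) D V * T),
        ∃ y ∈ G, (y : Matrix (RU1 g n s d) (RU1 g n s d) ℂ) =
          fromBlocks (blockDiagonal' x) 0 0 1 := by
  classical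
  obtain ⟨S, hS⟩ := exists_coordsC
    (fun q : Σ k, ((Fin (n k) ⊕ Fin (s k)) × Fin (2 * g k)) => z q.1 q.2.1 q.2.2)
  have hz : ∀ b, (fun q j => (Basis.ofVectorSpace ℚ ℂ).coord b (z q.1 q.2 j) :
      ∀ q : QJ n s, (A q.1).toAbVar.H1) ∈ uJ A D ⟨d, V⟩ := by
    intro b
    refine mem_uJ_of (V := ⟨d, V⟩) hom hu hD fun k e he => ?_
    funext j'
    have h1 := congrArg ((Basis.ofVectorSpace ℚ ℂ).coord b) (hrel k e he j')
    rw [map_zero, map_sum] at h1
    rw [Finset.sum_apply]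
    refine Eq.trans (Finset.sum_congr rfl fun p _ => ?_) h1
    rw [map_sum]
    have h2 : (fun j => (Basis.ofVectorSpace ℚ ℂ).coord b (z k p j) : (A k).toAbVar.H1) =
        ∑ j, ((Basis.ofVectorSpace ℚ ℂ).coord b (z k p j)) •
          (Pi.single j 1 : (A k).toAbVar.H1) := by
      funext k'
      rw [Finset.sum_apply]
      simp [Pi.single_apply]
    change (e p).1.1 (fun j => (Basis.ofVectorSpace ℚ ℂ).coord b (z k p j)) j' = _
    rw [h2, map_sum, Finset.sum_apply]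
    refine Finset.sum_congr rfl fun j _ => ?_
    have h3 : ∀ (c : ℂ) (q : ℚ), (Basis.ofVectorSpace ℚ ℂ).coord b (c * (q : ℂ)) =
        (Basis.ofVectorSpace ℚ ℂ).coord b c * q := by
      intro c q
      rw [mul_comm, ← Rat.smul_def, map_smul, smul_eq_mul, mul_comm]
    rw [map_smul, Pi.smul_apply, smul_eq_mul, h3]
  choose t ht using hz
  let L : Basis.ofVectorSpaceIndex ℚ ℂ → ∀ k, Tup (A k).toAbVar (n k) (s k) := fun b =>
    tJ A (fun q j => (Basis.ofVectorSpace ℚ ℂ).coord b (z q.1 q.2 j)) (t b)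
  obtain ⟨N, hN⟩ : ∃ N : ∀ k, Matrix (RI (g k) (n k) (s k)) (RI (g k) (n k) (s k)) ℂ,
    ∀ k, N k = ∑ b ∈ S, ((Basis.ofVectorSpace ℚ ℂ b : ℂ)) • mt (L b k) := ⟨_, fun _ => rfl⟩
  have hN1 : ∀ k, N k ∈ Fl (lev (g k) (n k) (s k)) 1 := by
    intro k
    rw [hN]
    refine Submodule.sum_mem _ fun b _ => Submodule.smul_mem _ _ ?_
    have h1 := Pool.Agent.N208.UR.mt_Fl (L b k) rfl
    have h2 : ((L b k).2.1 : ℂ) = 0 := Rat.cast_zero
    rwa [h2, zero_smul, sub_zero] at h1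
  have hN2 : ∀ k, N k * N k ∈ Fl (lev (g k) (n k) (s k)) 2 := fun k =>
    Pool.Agent.N208.UR.Fl_mul (hN1 k) (hN1 k)
  have hN3 : ∀ k, N k * N k * N k = 0 := fun k => Pool.Agent.N208.UR.Fl_three lev_le (by norm_num)
    (Pool.Agent.N208.UR.Fl_mul (hN2 k) (hN1 k))
  refine ⟨fun k => 1 + N k + (2 : ℂ)⁻¹ • (N k * N k), fun k => ?_, fun k i j => ?_,
    fun k l j => ?_, fun {G} hG {T} hT {p} hp hpT =>
      unip_in1 hG hT hp hpT hN3 S (fun b => Basis.ofVectorSpace ℚ ℂ b) L ht hN⟩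
  · have h1 : 1 + N k + (2 : ℂ)⁻¹ • (N k * N k) - 1 = N k + (2 : ℂ)⁻¹ • (N k * N k) := by abel
    rw [h1]
    exact Submodule.add_mem _ (hN1 k) (Submodule.smul_mem _ _
      (Pool.Agent.N208.UR.Fl_mono (by norm_num) (hN2 k)))
  · change (1 + N k + (2 : ℂ)⁻¹ • (N k * N k)) (Sum.inr (Sum.inr i)) (Sum.inl j) = _
    rw [Matrix.add_apply, Matrix.add_apply, Matrix.one_apply_ne (by simp), Matrix.smul_apply,
      hN2 k (Sum.inr (Sum.inr i)) (Sum.inl j) (by simp [lev]), smul_zero, add_zero, zero_add, hN,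
      Matrix.sum_apply]
    have h2 := hS ⟨k, (Sum.inl i, j)⟩
    simp only at h2
    rw [h2]
    refine Finset.sum_congr rfl fun b _ => ?_
    rw [Matrix.smul_apply, smul_eq_mul, mul_comm]
    rfl
  · change (1 + N k + (2 : ℂ)⁻¹ • (N k * N k)) (Sum.inl j) (Sum.inr (Sum.inl l)) = _
    rw [Matrix.add_apply, Matrix.add_apply, Matrix.one_apply_ne (by simp), Matrix.smul_apply,
      hN2 k (Sum.inl j) (Sum.inr (Sum.inl l)) (by simp [lev]), smul_zero, add_zero, zero_add, hN,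
      Matrix.sum_apply]
    have h4 : ∀ b, mt (L b k) (Sum.inl j) (Sum.inr (Sum.inl l)) = ∑ j',
        (((Basis.ofVectorSpace ℚ ℂ).coord b (z k (Sum.inr l) j') : ℚ) : ℂ) *
          (((A k).toAbVar.om (eb (A k).toAbVar j') (eb (A k).toAbVar j) : ℚ) : ℂ) := by
      intro b
      have h5 : mt (L b k) (Sum.inl j) (Sum.inr (Sum.inl l)) = (((A k).toAbVar.om
          (fun j => (Basis.ofVectorSpace ℚ ℂ).coord b (z k (Sum.inr l) j))
            (eb (A k).toAbVar j) : ℚ) : ℂ) := rfl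
      have h6 : (fun j => (Basis.ofVectorSpace ℚ ℂ).coord b (z k (Sum.inr l) j) :
          (A k).toAbVar.H1) = ∑ j', ((Basis.ofVectorSpace ℚ ℂ).coord b (z k (Sum.inr l) j')) •
            eb (A k).toAbVar j' := by
        funext k'
        rw [Finset.sum_apply]
        simp [eb, Pi.single_apply]
      rw [h5, h6, map_sum, LinearMap.sum_apply, Rat.cast_sum]
      refine Finset.sum_congr rfl fun j' _ => ?_
      rw [map_smul, LinearMap.smul_apply, smul_eq_mul, Rat.cast_mul]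
    simp only [Matrix.smul_apply, h4, smul_eq_mul, Finset.mul_sum]
    rw [Finset.sum_comm]
    refine Finset.sum_congr rfl fun j' _ => ?_
    have h2 := hS ⟨k, (Sum.inr l, j')⟩
    simp only at h2
    refine Eq.trans ?_ (congrArg (fun w => w * (((A k).toAbVar.om (eb (A k).toAbVar j')
      (eb (A k).toAbVar j) : ℚ) : ℂ)) h2.symm)
    rw [Finset.sum_mul]
    refine Finset.sum_congr rfl fun b _ => ?_
    ring

/-- **All unipotent elements are contained in the group.** -/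
theorem unip_in (hg : ∀ k, 0 < g k) (hU : ∀ z, z ∈ uJ A D ⟨d, V⟩)
    {x : ∀ k, GL (RI (g k) (n k) (s k)) ℂ}
    (hx : ∀ k, (x k : Matrix (RI (g k) (n k) (s k)) (RI (g k) (n k) (s k)) ℂ) - 1 ∈
      Fl (lev (g k) (n k) (s k)) 1)
    {G : Subgroup (GL (RU1 g n s d) ℂ)}
    (hG : ∃ S : Set (MvPolynomial (RU1 g n s d × RU1 g n s d) ℚ), ∀ x : GL (RU1 g n s d) ℂ,
      x ∈ G ↔ ∀ p ∈ S, MvPolynomial.aeval
        (fun b : RU1 g n s d × RU1 g n s d => (x : Matrix _ _ ℂ) b.1 b.2) p = 0)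
    {T : Matrix (CU1 g n s d) (RU1 g n s d) ℂ} (hT : ∀ i j, IsAlgebraic ℚ (T i j))
    {p : GL (RU1 g n s d) ℂ} (hp : p ∈ G)
    (hpT : (p : Matrix _ _ ℂ) = per1 (fun k => (A k).toAbVar) D V * T) :
    ∃ y ∈ G, (y : Matrix (RU1 g n s d) (RU1 g n s d) ℂ) =
      fromBlocks (blockDiagonal' fun k =>
        (x k : Matrix (RI (g k) (n k) (s k)) (RI (g k) (n k) (s k)) ℂ)) 0 0 1 := by
  classical
  choose N hN e1 e2 _ using fun k => unip_eq (lev_le (g := g k) (n := n k) (s := s k))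
    (W := DD (lev (g k) (n k) (s k))) (by rw [sub_self]; exact Submodule.zero_mem _) (hx k)
    (x k).mul_inv
  obtain ⟨S, hS⟩ := exists_coordsC
    (fun q : Σ k, (RI (g k) (n k) (s k) × RI (g k) (n k) (s k)) => N q.1 q.2.1 q.2.2)
  have hcomp : ∀ k, ∀ lam : ℂ →ₗ[ℚ] ℚ, cqm ((N k).map lam) ∈ Fl (lev (g k) (n k) (s k)) 1 := by
    intro k lam r r' hr
    rw [cqm_apply, Matrix.map_apply, hN k r r' hr, map_zero, Rat.cast_zero]
  choose L hL1 hL2 hL3 using fun (b : Basis.ofVectorSpaceIndex ℚ ℂ) (k : K) =>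
    exists_tup (A := (A k).toAbVar) (hcomp k ((Basis.ofVectorSpace ℚ ℂ).coord b))
  obtain ⟨y, hy, hyx⟩ := unip_in1 hG hT hp hpT e2 S (fun b => Basis.ofVectorSpace ℚ ℂ b) L
    (fun b => allJ_full hg hU (hL1 b) (hL2 b)) (by
    intro k
    ext i j
    rw [Matrix.sum_apply]
    have h2 := hS ⟨k, (i, j)⟩
    simp only at h2
    rw [h2]
    refine Finset.sum_congr rfl fun b _ => ?_
    have h3 : mt (L b k) i j = ((mtQ (L b k) i j : ℚ) : ℂ) := rfl
    rw [Matrix.smul_apply, h3, hL3, Matrix.map_apply, smul_eq_mul, mul_comm])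
  refine ⟨y, hy, hyx.trans ?_⟩
  congr 2
  funext k
  exact (e1 k).symm

end Main

end Pool.Agent.N192.GC.J
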