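import Pool.Agent.N192.GC.Fam

set_option autoImplicit false
set_option linter.unusedSectionVars false
set_option linter.unusedVariables false

/-!
# Several 1-motives over different abelian varieties
-/

open Module Function TensorProduct Matrix

noncomputable section

namespace Pool.Agent.N192.GC

open Pool.Agent.Y102 Pool.Agent.W516.DR Pool.Agent.H204R3.GP Pool.Agent.W516.KC
  Pool.Agent.H204R3.SP Pool.Agent.TH119.MX Pool.Agent.R917.OM Pool.Agent.R917.BX
  Pool.Agent.N192.MO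
open Pool.Agent.N192.GP (NN tt DRS UU RU LU gU LU_le LU_br gU_mem DA ηA NN_reindex brU_snd brU_fst
  hom_of_comm IsHomAb eqv DA_basis)

/-- Cocycles which vanish on the elements acting trivially on further abelian varieties. -/
theorem ga_vanish {g : ℕ} (A : AbVarG g) {K : Type} [Fintype K] {gl : K → ℕ}
    (B : ∀ l, AbVarG (gl l)) (V : UU) {φ : pts A →₀ EE A}
    (hφ : ∀ x : LU, x.1.1 V = 0 → aA A x.1 = 0 → x.1.2 = 0 → (∀ l, aA (B l) x.1 = 0) →
      ga A φ x = 0) (x : LU) (hxV : x.1.1 V = 0) (hx1 : aA A x.1 = 0) (hx2 : x.1.2 = 0) :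
    ga A φ x = 0 := by
  classical
  have key : ∀ S : Finset K, (∀ x : LU, x.1.1 V = 0 → aA A x.1 = 0 → x.1.2 = 0 →
      (∀ l ∈ S, aA (B l) x.1 = 0) → ga A φ x = 0) →
      ∀ x : LU, x.1.1 V = 0 → aA A x.1 = 0 → x.1.2 = 0 → ga A φ x = 0 := by
    intro S
    induction S using Finset.induction_on with
    | empty => exact fun h x h0 h1 h2 => h x h0 h1 h2 fun l hl => absurd hl (Finset.notMem_empty l)
    | insert l S hl ih =>
      intro h
      refine ih fun x h0 h1 h2 h3 => ?_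
      let M : Submodule ℚ RU :=
        { carrier := {x | x ∈ LU ∧ x.1 V = 0 ∧ aA A x = 0 ∧ x.2 = 0 ∧ ∀ l ∈ S, aA (B l) x = 0}
          zero_mem' := ⟨LU.zero_mem, rfl, rfl, rfl, fun l _ => rfl⟩
          add_mem' := by
            rintro x y ⟨a1, a0, a2, a3, a4⟩ ⟨b1, b0, b2, b3, b4⟩
            refine ⟨LU.add_mem a1 b1, ?_, ?_, ?_, fun l hl => ?_⟩
            · rw [Prod.fst_add, Pi.add_apply, a0, b0, add_zero]
            · rw [aA_add, a2, b2, add_zero]
            · rw [Prod.snd_add, a3, b3, add_zero]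
            · rw [aA_add, a4 l hl, b4 l hl, add_zero]
          smul_mem' := by
            rintro c x ⟨a1, a0, a2, a3, a4⟩
            refine ⟨LU.smul_mem c a1, ?_, ?_, ?_, fun l hl => ?_⟩
            · rw [Prod.smul_fst, Pi.smul_apply, a0, smul_zero]
            · rw [aA_smul, a2, smul_zero]
            · rw [Prod.smul_snd, a3, smul_zero]
            · rw [aA_smul, a4 l hl, smul_zero] }
      refine vanish_step A (B l) (M := M) (fun x hx => hx.1) ?_ (ga A φ) ?_ ?_ x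
        ⟨x.2, h0, h1, h2, h3⟩
      · rintro y hy x ⟨a1, a0, a2, a3, a4⟩
        refine ⟨LU_br y hy x a1, ?_, ?_, brU_snd _ _, fun l hl => ?_⟩
        · rw [brU_fst, a0, mul_zero, zero_mul, sub_zero]
        · rw [aA_br, a2, mul_zero, zero_mul, sub_zero]
        · rw [aA_br, a4 l hl, mul_zero, zero_mul, sub_zero]
      · rintro y x ⟨a1, a0, a2, a3, a4⟩
        rw [ga_br, a2, LinearMap.zero_apply, sub_zero]
      · rintro x ⟨a1, a0, a2, a3, a4⟩ hxl
        refine h x a0 a2 a3 fun l' hl' => ?_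
        rcases Finset.mem_insert.1 hl' with rfl | h5
        · exact hxl
        · exact a4 l' h5
  exact key Finset.univ (fun x h0 h1 h2 h3 => hφ x h0 h1 h2 fun l => h3 l (Finset.mem_univ l)) x
    hxV hx1 hx2

section joint

variable {K : Type} [Fintype K] [DecidableEq K] {g n s : K → ℕ} (A : ∀ k, AbVarG (g k))
  (D : ∀ k, Dt (g k) (n k) (s k)) (V : UU)

/-- The families of tuples of the elements which act trivially on the structure and on the abelian
varieties. -/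
def kJ : Submodule ℚ (∀ k, Tup (A k).toAbVar (n k) (s k)) where
  carrier := {L | ∃ x ∈ LU, (∀ k, RlC (A k).toAbVar (D k) x (L k)) ∧ x.1 V = 0 ∧
    (∀ k, aA (A k) x = 0) ∧ x.2 = 0}
  zero_mem' := ⟨0, LU.zero_mem, fun _ => RlC.zero, rfl, fun _ => rfl, rfl⟩
  add_mem' := by
    rintro L L' ⟨x, hx, h, h1, h2, h3⟩ ⟨y, hy, h', h1', h2', h3'⟩
    refine ⟨x + y, LU.add_mem hx hy, fun k => (h k).add (h' k), ?_, fun k => ?_, ?_⟩
    · rw [Prod.fst_add, Pi.add_apply, h1, h1', add_zero]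
    · rw [aA_add, h2, h2', add_zero]
    · rw [Prod.snd_add, h3, h3', add_zero]
  smul_mem' := by
    rintro c L ⟨x, hx, h, h1, h2, h3⟩
    refine ⟨c • x, LU.smul_mem c hx, fun k => (h k).smul c, ?_, fun k => ?_, ?_⟩
    · rw [Prod.smul_fst, Pi.smul_apply, h1, smul_zero]
    · rw [aA_smul, h2, smul_zero]
    · rw [Prod.smul_snd, h3, smul_zero]

/-- The index of the vectors. -/
abbrev QJ (n s : K → ℕ) : Type := Σ k, (Fin (n k) ⊕ Fin (s k))

/-- The family of tuples with given parts of weight `-1` and `-2`. -/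
def tJ (z : ∀ q : QJ n s, (A q.1).toAbVar.H1) (t : ∀ k, Fin (n k) → Fin (s k) → ℚ) :
    ∀ k, Tup (A k).toAbVar (n k) (s k) := fun k => (0, 0, fun p => z ⟨k, p⟩, t k)

/-- The parts of weight `-1`. -/
def uJ : Submodule ℚ (∀ q : QJ n s, (A q.1).toAbVar.H1) where
  carrier := {z | ∃ t, tJ A z t ∈ kJ A D V}
  zero_mem' := ⟨0, (kJ A D V).zero_mem⟩
  add_mem' := by
    rintro z z' ⟨t, ht⟩ ⟨t', ht'⟩
    refine ⟨t + t', ?_⟩
    have h1 := (kJ A D V).add_mem ht ht'
    convert h1 using 1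
    funext k
    simp [tJ]
    rfl
  smul_mem' := by
    rintro c z ⟨t, ht⟩
    refine ⟨c • t, ?_⟩
    have h1 := (kJ A D V).smul_mem c ht
    convert h1 using 1
    funext k
    simp [tJ]
    rfl

variable {A D V}

theorem kJ_eq {L : ∀ k, Tup (A k).toAbVar (n k) (s k)} (hL : L ∈ kJ A D V) :
    L = tJ A (fun q => (L q.1).2.2.1 q.2) fun k => (L k).2.2.2 := by
  obtain ⟨x, hx, h, h1, h2, h3⟩ := hL
  funext k
  have h4 : (L k).2.1 = 0 := by
    have h5 := (h k).rl.tw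
    rw [h3] at h5
    linarith
  have h5 : op (L k) = (L k).1 := by
    unfold op
    rw [h4, zero_smul, add_zero]
  have h6 : (L k).1 = 0 := by
    rw [← h5, ← (h k).rl.ab]
    exact h2 k
  exact Prod.ext h6 (Prod.ext h4 rfl)

/-- **The joint unipotent part of weight `-1` is given by the relations modulo the exceptional
points.** -/
theorem mem_uJ_of (hom : ∀ k l, k ≠ l → ∀ f : (A k).toAbVar.H1 →ₗ[ℚ] (A l).toAbVar.H1,
      IsHomAb (A k).toAbVar (A l).toAbVar f → f = 0)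
    {u : ∀ k, Fin (n k) ⊕ Fin (s k) → Fin (g k) → ℂ} (hu : ∀ k p, IsPoint (A k).toAbVar (u k p))
    (hD : ∀ k p, (D k).P p = hh (A k) (u k p)) {z : ∀ q : QJ n s, (A q.1).toAbVar.H1}
    (hz : ∀ k, ∀ e : Fin (n k) ⊕ Fin (s k) → EE (A k), ∑ p, (e p).1.2 (u k p) ∈ Gam (A k) V →
      ∑ p, (e p).1.1 (z ⟨k, p⟩) = 0) : z ∈ uJ A D V := by
  classical
  obtain ⟨π, hπ2, hπ0, hπc⟩ := exists_proj_fam (fun (q : QJ n s) (x : LU) => aA (A q.1) x.1)
    (fun q => semiF A q.1) (uJ A D V) (by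
    rintro y z ⟨t, x, hx, h, h1, h2, h3⟩
    choose L hL using fun k => exists_RlC (A k).toAbVar (D k) y.2
    have hk : (fun k => Pool.Agent.R917.OM.br (L k) (tJ A z t k)) ∈ kJ A D V := by
      refine ⟨y.1 * x - x * y.1, LU_br y.1 y.2 x hx, fun k => (hL k).br (h k), ?_, fun k => ?_,
        brU_snd _ _⟩
      · rw [brU_fst, h1, mul_zero, zero_mul, sub_zero]
      · rw [aA_br, h2, mul_zero, zero_mul, sub_zero]
    have h4 := kJ_eq hk
    rw [h4] at hk
    refine ⟨fun k => (Pool.Agent.R917.OM.br (L k) (tJ A z t k)).2.2.2, ?_⟩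
    convert hk using 2
    funext q
    change aA (A q.1) y.1 (z q) = op (L q.1) (z q) - op (tJ A z t q.1) _
    rw [op_apply (tJ A z t q.1)]
    have h5 : (tJ A z t q.1).1 = 0 := rfl
    have h6 : (tJ A z t q.1).2.1 = 0 := rfl
    rw [h5, h6, LinearMap.zero_apply, zero_smul, add_zero, sub_zero,
      show aA (A q.1) y.1 = op (L q.1) from aA_of (A q.1) (hL q.1).rl])
  let f : ∀ p q : QJ n s, (A q.1).toAbVar.H1 →ₗ[ℚ] (A p.1).toAbVar.H1 := fun p q =>
    (LinearMap.proj p ∘ₗ π) ∘ₗ LinearMap.single ℚ (fun q : QJ n s => (A q.1).toAbVar.H1) q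
  have hfπ : ∀ z p, π z p = ∑ q, f p q (z q) := by
    intro z p
    have h1 : z = ∑ q, (LinearMap.single ℚ (fun q : QJ n s => (A q.1).toAbVar.H1) q (z q)) := by
      funext q
      rw [Finset.sum_apply, Finset.sum_eq_single q]
      · simp
      · intro b _ hb
        simp [hb.symm]
      · intro hq
        exact absurd (Finset.mem_univ _) hq
    conv_lhs => rw [h1, map_sum, Finset.sum_apply]
    rfl
  have hfc : ∀ p q, ∀ y ∈ LU, ∀ w, f p q (aA (A q.1) y w) = aA (A p.1) y (f p q w) := by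
    intro p q y hy w
    have h1 := congrFun (hπc ⟨y, hy⟩ (Pi.single q w)) p
    have h2 : (fun p : QJ n s => aA (A p.1) y
        ((Pi.single q w : ∀ q : QJ n s, (A q.1).toAbVar.H1) p)) =
        (Pi.single q (aA (A q.1) y w) : ∀ q : QJ n s, (A q.1).toAbVar.H1) := by
      funext p'
      by_cases hp : p' = q
      · subst hp
        rw [Pi.single_eq_same, Pi.single_eq_same]
      · rw [Pi.single_eq_of_ne hp, Pi.single_eq_of_ne hp, map_zero]
    rw [h2] at h1
    exact h1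
  have hhom : ∀ p q, IsHomAb (A q.1).toAbVar (A p.1).toAbVar (f p q) := fun p q =>
    hom_of_equiv A (hfc p q)
  have hf0 : ∀ p q : QJ n s, q.1 ≠ p.1 → f p q = 0 := fun p q hpq => hom _ _ hpq _ (hhom p q)
  choose F hF using fun p q => (hhom p q).1
  let e : ∀ (k : K) (i j : Fin (n k) ⊕ Fin (s k)), EE (A k) := fun k i j =>
    ⟨(f ⟨k, i⟩ ⟨k, j⟩, F ⟨k, i⟩ ⟨k, j⟩), hF ⟨k, i⟩ ⟨k, j⟩,
      (A k).toAbVar.mem_EA.2 (hhom ⟨k, i⟩ ⟨k, j⟩).2⟩
  have hπk : ∀ z (k : K) (i : Fin (n k) ⊕ Fin (s k)), π z ⟨k, i⟩ =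
      ∑ j, (e k i j).1.1 (z ⟨k, j⟩) := by
    intro z k i
    rw [hfπ, Fintype.sum_sigma, Finset.sum_eq_single k]
    · intro l _ hl
      refine Finset.sum_eq_zero fun j _ => ?_
      rw [hf0 ⟨k, i⟩ ⟨l, j⟩ hl, LinearMap.zero_apply]
    · intro h
      exact absurd (Finset.mem_univ _) h
  rw [← hπ0]
  funext p
  obtain ⟨k, i⟩ := p
  rw [hπk]
  refine hz k (e k i) ?_
  let φ : pts (A k) →₀ EE (A k) := ∑ j, Finsupp.single ⟨u k j, hu k j⟩ (e k i j)
  have hga : ∀ x : LU, ga (A k) φ x =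
      ∑ j, (e k i j).1.1 (cc (A k).toAbVar (hh (A k) (u k j)) x.1) := by
    intro x
    simp only [φ]
    rw [map_sum, LinearMap.sum_apply]
    exact Finset.sum_congr rfl fun j _ => ga_single (A k) _ _ x
  have hsg : sg (A k) φ = ∑ j, (e k i j).1.2 (u k j) := by
    simp only [φ]
    rw [map_sum]
    exact Finset.sum_congr rfl fun j _ => sg_single (A k) _ _
  clear_value φ
  refine ⟨φ, ?_, hsg⟩
  change ga (A k) φ ∈ LinearMap.range (LinearMap.lcomp ℚ (A k).toAbVar.H1 (rh (A k) V))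
  have hk : ∀ x, rh (A k) V x = 0 → ga (A k) φ x = 0 := by
    intro x hx0
    have h1 : (x.1.1 V, (x.1.1 (UAA (A k).toAbVar) : Module.End ℚ (Fin (2 * g k) → ℚ)), x.1.2) = 0 :=
      hx0
    have e1 : x.1.1 V = 0 := congrArg Prod.fst h1
    have e2 : aA (A k) x.1 = 0 := congrArg (fun t => t.2.1) h1
    have e3 : x.1.2 = 0 := congrArg (fun t => t.2.2) h1
    refine ga_vanish (A k) A V (fun x a0 a1 a2 a3 => ?_) x e1 e2 e3
    choose L hL using fun k => exists_RlC (A k).toAbVar (D k) x.2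
    have hLk : L ∈ kJ A D V := ⟨x.1, x.2, hL, a0, a3, a2⟩
    have h5 : (fun q : QJ n s => (L q.1).2.2.1 q.2) ∈ uJ A D V := by
      refine ⟨fun k => (L k).2.2.2, ?_⟩
      rw [← kJ_eq hLk]
      exact hLk
    have h6 := congrFun ((hπ0 _).2 h5) ⟨k, i⟩
    rw [hπk] at h6
    rw [hga]
    refine Eq.trans (Finset.sum_congr rfl fun j _ => ?_) h6
    rw [← hD k j, (hL k).cc j]
  obtain ⟨h', hh'⟩ := exists_fac (E1 := LU) (E2 := ET (g := g k) V) (E3 := (A k).toAbVar.H1)
    (rh (A k) V) (ga (A k) φ) hk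
  exact ⟨h', LinearMap.ext hh'⟩

/-- The brackets of elements of weight `-1`. -/
theorem ttJ_full (hg : ∀ k, 0 < g k) (hU : ∀ z, z ∈ uJ A D V)
    (t : ∀ k, Fin (n k) → Fin (s k) → ℚ) : tJ A (n := n) (s := s) 0 t ∈ kJ A D V := by
  classical
  have hab : ∀ k, ∃ a b : (A k).toAbVar.H1, (A k).toAbVar.om a b = 1 := by
    intro k
    let f : (A k).toAbVar.H1 →ₗ[ℚ] ℚ := LinearMap.proj (⟨0, by have := hg k; omega⟩ : Fin (2 * g k))
    obtain ⟨u, hu⟩ := (A k).toAbVar.om_surj (f := f)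
    refine ⟨u, Pi.single ⟨0, by have := hg k; omega⟩ 1, ?_⟩
    rw [hu]
    simp [f]
  -- the elementary families
  let E : (Σ k, Fin (n k) × Fin (s k)) → ∀ k, Fin (n k) → Fin (s k) → ℚ := fun q k i l =>
    if (⟨k, (i, l)⟩ : Σ k, Fin (n k) × Fin (s k)) = q then 1 else 0
  have key : ∀ q, tJ A (n := n) (s := s) 0 (E q) ∈ kJ A D V := by
    rintro ⟨k, i, l⟩
    obtain ⟨a, b, hab1⟩ := hab k
    obtain ⟨t1, x, hx, hx1, hx2, hx3, hx4⟩ := hU (Pi.single ⟨k, Sum.inr l⟩ a)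
    obtain ⟨t2, y, hy, hy1, hy2, hy3, hy4⟩ := hU (Pi.single ⟨k, Sum.inl i⟩ b)
    have h3 : (fun k' => Pool.Agent.R917.OM.br (tJ A (Pi.single ⟨k, Sum.inr l⟩ a) t1 k')
        (tJ A (Pi.single ⟨k, Sum.inl i⟩ b) t2 k')) ∈ kJ A D V := by
      refine ⟨x * y - y * x, LU_br x hx y hy, fun k' => (hx1 k').br (hy1 k'), ?_, fun k' => ?_,
        brU_snd _ _⟩
      · rw [brU_fst, hx2, mul_zero, zero_mul, sub_zero]
      · rw [aA_br, hx3, mul_zero, zero_mul, sub_zero]
    convert h3 using 1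
    funext k'
    refine Prod.ext ?_ (Prod.ext rfl (Prod.ext ?_ ?_))
    · change (0 : Module.End ℚ (A k').toAbVar.H1) = 0 * 0 - 0 * 0
      rw [mul_zero, sub_zero]
    · funext p
      change (0 : (A k').toAbVar.H1) = op _ _ - op _ _
      rw [op_apply, op_apply]
      simp [tJ]
    · funext i' l'
      change E ⟨k, i, l⟩ k' i' l' = (A k').toAbVar.om ((Pi.single (⟨k, Sum.inr l⟩ : QJ n s) a :
            ∀ q : QJ n s, (A q.1).toAbVar.H1) ⟨k', Sum.inr l'⟩)
          ((Pi.single (⟨k, Sum.inl i⟩ : QJ n s) b : ∀ q : QJ n s, (A q.1).toAbVar.H1)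
            ⟨k', Sum.inl i'⟩) -
        (A k').toAbVar.om ((Pi.single (⟨k, Sum.inl i⟩ : QJ n s) b :
            ∀ q : QJ n s, (A q.1).toAbVar.H1) ⟨k', Sum.inr l'⟩)
          ((Pi.single (⟨k, Sum.inr l⟩ : QJ n s) a : ∀ q : QJ n s, (A q.1).toAbVar.H1)
            ⟨k', Sum.inl i'⟩) + 2 * 0 * t2 k' i' l' - 2 * 0 * t1 k' i' l'
      rw [Pi.single_eq_of_ne (i := (⟨k, Sum.inl i⟩ : QJ n s)) (i' := ⟨k', Sum.inr l'⟩)
          (fun h => by cases h),
        Pi.single_eq_of_ne (i := (⟨k, Sum.inr l⟩ : QJ n s)) (i' := ⟨k', Sum.inl i'⟩)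
          (fun h => by cases h)]
      by_cases hk : k' = k
      · subst hk
        by_cases hi : i' = i
        · subst hi
          by_cases hl : l' = l
          · subst hl
            rw [Pi.single_eq_same, Pi.single_eq_same, hab1]
            simp [E]
          · rw [Pi.single_eq_of_ne (i := (⟨k', Sum.inr l⟩ : QJ n s)) (i' := ⟨k', Sum.inr l'⟩)
              (fun h => by cases h; exact hl rfl)]
            simp [E, hl]
        · rw [Pi.single_eq_of_ne (i := (⟨k', Sum.inl i⟩ : QJ n s)) (i' := ⟨k', Sum.inl i'⟩)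
            (fun h => by cases h; exact hi rfl)]
          simp [E, hi]
      · rw [Pi.single_eq_of_ne (i := (⟨k, Sum.inr l⟩ : QJ n s)) (i' := ⟨k', Sum.inr l'⟩)
          (fun h => by cases h; exact hk rfl)]
        have h5 : E ⟨k, i, l⟩ k' i' l' = 0 := if_neg fun h => hk (congrArg Sigma.fst h)
        rw [h5]
        simp
  have h4 : tJ A (n := n) (s := s) 0 t = ∑ q : Σ k, Fin (n k) × Fin (s k),
      t q.1 q.2.1 q.2.2 • tJ A (n := n) (s := s) 0 (E q) := by
    funext k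
    rw [Finset.sum_apply]
    refine Prod.ext ?_ (Prod.ext ?_ (Prod.ext ?_ ?_))
    · rw [Prod.fst_sum]
      refine (Finset.sum_eq_zero fun q _ => ?_).symm
      exact smul_zero _
    · rw [Prod.snd_sum, Prod.fst_sum]
      refine (Finset.sum_eq_zero fun q _ => ?_).symm
      exact smul_zero (M := ℚ) (A := ℚ) _
    · rw [Prod.snd_sum, Prod.snd_sum, Prod.fst_sum]
      refine (Finset.sum_eq_zero fun q _ => ?_).symm
      exact smul_zero _
    · rw [Prod.snd_sum, Prod.snd_sum, Prod.snd_sum]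
      funext i l
      rw [Finset.sum_apply, Finset.sum_apply,
        Finset.sum_eq_single (⟨k, (i, l)⟩ : Σ k, Fin (n k) × Fin (s k))]
      · change t k i l = t k i l * E ⟨k, (i, l)⟩ k i l
        have h5 : E ⟨k, (i, l)⟩ k i l = 1 := if_pos rfl
        rw [h5, mul_one]
      · intro q _ hq
        change t q.1 q.2.1 q.2.2 * E q k i l = 0
        have h5 : E q k i l = 0 := if_neg fun h => hq h.symm
        rw [h5, mul_zero]
      · intro h
        exact absurd (Finset.mem_univ _) h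
  rw [h4]
  exact Submodule.sum_mem _ fun q _ => Submodule.smul_mem _ _ (key q)

theorem allJ_full (hg : ∀ k, 0 < g k) (hU : ∀ z, z ∈ uJ A D V)
    {L : ∀ k, Tup (A k).toAbVar (n k) (s k)} (h1 : ∀ k, (L k).1 = 0) (h2 : ∀ k, (L k).2.1 = 0) :
    L ∈ kJ A D V := by
  obtain ⟨t, ht⟩ := hU fun q => (L q.1).2.2.1 q.2
  have h3 := (kJ A D V).add_mem ht (ttJ_full hg hU fun k => (L k).2.2.2 - t k)
  convert h3 using 1
  funext k
  refine Prod.ext ?_ (Prod.ext ?_ (Prod.ext ?_ ?_))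
  · change (L k).1 = 0 + 0
    rw [h1, add_zero]
  · change (L k).2.1 = 0 + 0
    rw [h2, add_zero]
  · change (L k).2.2.1 = (fun p => (L k).2.2.1 p) + 0
    rw [add_zero]
  · change (L k).2.2.2 = t k + ((L k).2.2.2 - t k)
    abel

end joint

end Pool.Agent.N192.GC
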